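import Pool.Agent.Lib.H76Q.Q3

/-!
# S1: one conjugacy class of Hodge-Tate cocharacters meets one simple ideal only
-/

set_option autoImplicit false
set_option linter.unusedSectionVars false
namespace Pool.Agent.H45Q
open Module Matrix Pool.Agent.H53Toric Pool.Agent.H76P Pool.Agent.H76Q
open Pool.Agent.H76T (IsIdeal Fam)
open Pool.Agent.H76U (cmp)

section
variable {κ : Type*} {K : Type*} [Field K] [CharZero K] [Fintype κ] [DecidableEq κ]
  {L I : Submodule K (Module.End K (κ → K))}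

/-- Conjugation with `t ^ z` for an involution `z` of `L` preserves the ideals. -/
theorem conj_par (hI : IsIdeal L I) {z : Module.End K (κ → K)} (hz : z ∈ L) (hzz : z * z = 1) {t : K}
    (ht : t ≠ 0) {X : Module.End K (κ → K)} (hX : X ∈ I) :
    (((1 + t) / 2) • (1 : Module.End K (κ → K)) + ((t - 1) / 2) • z) * X *
      (((1 + t⁻¹) / 2) • (1 : Module.End K (κ → K)) + ((t⁻¹ - 1) / 2) • z) ∈ I := by
  have h1 : z * X - X * z ∈ I := hI.2 z hz X hX
  have h2 : z * (z * X - X * z) - (z * X - X * z) * z ∈ I := hI.2 z hz _ h1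
  have h3 : z * (z * X - X * z) - (z * X - X * z) * z = (2 : K) • X - (2 : K) • (z * X * z) := by
    have e1 : z * (z * X) = X := by rw [← mul_assoc, hzz, one_mul]
    have e2 : X * z * z = X := by rw [mul_assoc, hzz, mul_one]
    rw [mul_sub, sub_mul, e1, e2, ← mul_assoc z X z]
    module
  rw [h3] at h2
  have h4 : z * X * z ∈ I := by
    have h5 : z * X * z = X - (1 / 2 : K) • ((2 : K) • X - (2 : K) • (z * X * z)) := by module
    rw [h5]
    exact I.sub_mem hX (I.smul_mem _ h2)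
  have h6 : (((1 + t) / 2) • (1 : Module.End K (κ → K)) + ((t - 1) / 2) • z) * X *
      (((1 + t⁻¹) / 2) • (1 : Module.End K (κ → K)) + ((t⁻¹ - 1) / 2) • z) =
      ((1 + t) / 2 * ((1 + t⁻¹) / 2)) • X + ((1 + t) / 2 * ((t⁻¹ - 1) / 2)) • (X * z) +
        ((t - 1) / 2 * ((1 + t⁻¹) / 2)) • (z * X) + ((t - 1) / 2 * ((t⁻¹ - 1) / 2)) • (z * X * z) := by
    simp only [add_mul, mul_add, smul_mul_assoc, mul_smul_comm, one_mul, mul_one, smul_smul, smul_add]
    module
  have h7 : (1 + t) / 2 * ((t⁻¹ - 1) / 2) = -((t - 1) / 2 * ((1 + t⁻¹) / 2)) := by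
    field_simp
    ring
  have h8 : ((1 + t) / 2 * ((1 + t⁻¹) / 2)) • X + ((1 + t) / 2 * ((t⁻¹ - 1) / 2)) • (X * z) +
        ((t - 1) / 2 * ((1 + t⁻¹) / 2)) • (z * X) + ((t - 1) / 2 * ((t⁻¹ - 1) / 2)) • (z * X * z) =
      ((1 + t) / 2 * ((1 + t⁻¹) / 2)) • X + ((t - 1) / 2 * ((1 + t⁻¹) / 2)) • (z * X - X * z) +
        ((t - 1) / 2 * ((t⁻¹ - 1) / 2)) • (z * X * z) := by
    rw [h7]
    module
  rw [h6, h8]
  exact I.add_mem (I.add_mem (I.smul_mem _ hX) (I.smul_mem _ h1)) (I.smul_mem _ h4)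

end

section
variable {ι : Type*} [Fintype ι] [DecidableEq ι] {K : Type*} [Field K] [CharZero K]
  {e : Matrix ι ι K} {n : ℕ} {U : Matrix ι (Fin n) K} {V : Matrix (Fin n) ι K}

/-- The compression of `t ^ k`. -/
theorem cmp_par (hUV : e = U * V) (hVU : V * U = 1) (k : Matrix ι ι K) (t : K) :
    phi (cmp U V (1 + (t - 1) • k)) =
      ((1 + t) / 2) • (1 : Module.End K (Fin n → K)) +
        ((t - 1) / 2) • phi (cmp U V ((2 : K) • k - 1)) := by
  have h5 : 1 + (t - 1) • k = ((1 + t) / 2) • (1 : Matrix ι ι K) + ((t - 1) / 2) • ((2 : K) • k - 1) := by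
    rw [smul_sub, smul_smul]
    module
  rw [h5, map_add, map_smul, map_smul, Pool.Agent.H76U.cmp_one hUV hVU, map_add, map_smul, map_smul, map_one]

theorem cmp_inv (hUV : e = U * V) (hVU : V * U = 1) {k : Matrix ι ι K} (hkk : k * k = k) (hke : k * e = e * k) :
    phi (cmp U V ((2 : K) • k - 1)) * phi (cmp U V ((2 : K) • k - 1)) = 1 := by
  have h2 : ((2 : K) • k - 1) * e = e * ((2 : K) • k - 1) := by
    rw [sub_mul, mul_sub, one_mul, mul_one, smul_mul_assoc, mul_smul_comm, hke]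
  have h3 : ((2 : K) • k - 1) * ((2 : K) • k - 1) = 1 := by
    simp only [sub_mul, mul_sub, smul_mul_assoc, mul_smul_comm, hkk, mul_one, one_mul]
    module
  rw [← map_mul, ← Pool.Agent.H76U.cmp_mul hUV hVU h2, h3, Pool.Agent.H76U.cmp_one hUV hVU, map_one]

theorem inv_comm {y y' : Matrix ι ι K} (hy : y * y' = 1) (hye : y * e = e * y) : y' * e = e * y' := by
  have h0 : y' * y = 1 := mul_eq_one_comm.1 hy
  calc y' * e = y' * (e * (y * y')) := by rw [hy, Matrix.mul_one]
    _ = y' * ((e * y) * y') := by rw [Matrix.mul_assoc e y y']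
    _ = y' * ((y * e) * y') := by rw [hye]
    _ = (y' * y) * (e * y') := by simp only [Matrix.mul_assoc]
    _ = e * y' := by rw [h0, Matrix.one_mul]

/-- Conjugation with the elements of the group generated by the one parameter groups preserves the ideals. -/
theorem conj_tgen (hUV : e = U * V) (hVU : V * U = 1) {𝓗 : Set (Matrix ι ι K)}
    {L I : Submodule K (Module.End K (Fin n → K))}
    (par : ∀ k ∈ 𝓗, k * k = k ∧ k * e = e * k ∧ phi (cmp U V ((2 : K) • k - 1)) ∈ L) (hI : IsIdeal L I)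
    {y : Matrix ι ι K} (hy : y ∈ Submonoid.closure {x | ∃ k ∈ 𝓗, ∃ t : K, t ≠ 0 ∧ x = 1 + (t - 1) • k}) :
    y * e = e * y ∧ ∀ y', y * y' = 1 → ∀ X ∈ I, phi (cmp U V y) * X * phi (cmp U V y') ∈ I := by
  induction hy using Submonoid.closure_induction with
  | mem y hy =>
    obtain ⟨k, hk, t, ht, rfl⟩ := hy
    obtain ⟨hkk, hke, hkL⟩ := par k hk
    refine ⟨by rw [add_mul, mul_add, one_mul, mul_one, smul_mul_assoc, mul_smul_comm, hke], ?_⟩
    intro y' hyy X hX
    have h1 : (1 + (t - 1) • k) * (1 + (t⁻¹ - 1) • k) = 1 := by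
      simp only [add_mul, mul_add, smul_mul_assoc, mul_smul_comm, one_mul, mul_one, hkk]
      have e1 : (t - 1) + (t⁻¹ - 1) + (t - 1) * (t⁻¹ - 1) = 0 := by
        field_simp
        ring
      calc _ = (1 : Matrix ι ι K) + ((t - 1) + (t⁻¹ - 1) + (t - 1) * (t⁻¹ - 1)) • k := by module
        _ = 1 := by rw [e1, zero_smul, add_zero]
    have h2 : y' = 1 + (t⁻¹ - 1) • k := by
      have h3 : y' * (1 + (t - 1) • k) = 1 := mul_eq_one_comm.1 hyy
      calc y' = y' * ((1 + (t - 1) • k) * (1 + (t⁻¹ - 1) • k)) := by rw [h1, mul_one]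
        _ = 1 + (t⁻¹ - 1) • k := by rw [← mul_assoc, h3, one_mul]
    rw [h2, cmp_par hUV hVU, cmp_par hUV hVU]
    exact conj_par hI hkL (cmp_inv hUV hVU hkk hke) ht hX
  | one =>
    refine ⟨by rw [one_mul, mul_one], fun y' hy X hX => ?_⟩
    rw [one_mul] at hy
    rw [hy, Pool.Agent.H76U.cmp_one hUV hVU, map_one, one_mul, mul_one]
    exact hX
  | mul a b _ _ iha ihb =>
    obtain ⟨ha, iha⟩ := iha
    obtain ⟨hb, ihb⟩ := ihb
    refine ⟨by rw [mul_assoc, hb, ← mul_assoc, ha, mul_assoc], fun y' hy X hX => ?_⟩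
    have h1 : a * (b * y') = 1 := by rw [← mul_assoc, hy]
    have h2 : y' * (a * b) = 1 := mul_eq_one_comm.1 hy
    have h3 : (y' * a) * b = 1 := by rw [mul_assoc, h2]
    have h4 : b * (y' * a) = 1 := mul_eq_one_comm.1 h3
    have h5 : y' = (y' * a) * (b * y') := by
      calc y' = y' * (a * (b * y')) := by rw [h1, mul_one]
        _ = (y' * a) * (b * y') := (mul_assoc _ _ _).symm
    have ha' : (b * y') * e = e * (b * y') := inv_comm h1 ha
    have h6 := iha (b * y') h1 _ (ihb (y' * a) h4 X hX)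
    have h7 : phi (cmp U V (a * b)) * X * phi (cmp U V y') =
        phi (cmp U V a) * (phi (cmp U V b) * X * phi (cmp U V (y' * a))) * phi (cmp U V (b * y')) := by
      nth_rw 1 [h5]
      rw [Pool.Agent.H76U.cmp_mul hUV hVU hb, Pool.Agent.H76U.cmp_mul hUV hVU ha', map_mul, map_mul]
      simp only [mul_assoc]
    rw [h7]
    exact h6

variable [IsAlgClosed K]

/-- **One class, one ideal.** -/
theorem fam_one (hn : 0 < n) (hUV : e = U * V) (hVU : V * U = 1) {𝓗 Gs : Set (Matrix ι ι K)}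
    {L : Submodule K (Module.End K (Fin n → K))} (hirr : Irr L)
    (htr : ∀ X ∈ L, LinearMap.trace K (Fin n → K) X = 0)
    (par : ∀ k ∈ 𝓗, k * k = k ∧ k * e = e * k ∧ phi (cmp U V ((2 : K) • k - 1)) ∈ L)
    (comm : ∀ Z : Matrix ι ι K, (∀ g ∈ Gs, Z * g = g * Z) → ∃ c : K, e * Z * e = c • e)
    {h : Matrix ι ι K} (hh : h ∈ 𝓗)
    (gen1 : ∀ g ∈ Gs, g ∈ Submonoid.closure {x | ∃ y y' : Matrix ι ι K,
      y ∈ Submonoid.closure {x | ∃ k ∈ 𝓗, ∃ t : K, t ≠ 0 ∧ x = 1 + (t - 1) • k} ∧ y * y' = 1 ∧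
        ∃ t : K, t ≠ 0 ∧ x = 1 + (t - 1) • (y * h * y')})
    {m : ℕ} {I : Fin m → Submodule K (Module.End K (Fin n → K))} (hF : Fam L I) : m = 1 := by
  have hne : Nonempty (Fin n) := ⟨⟨0, hn⟩⟩
  obtain ⟨hhh, hhe, hhL⟩ := par h hh
  have hyy := cmp_inv hUV hVU hhh hhe
  obtain ⟨j₀, hj₀⟩ : ∃ j, phi (cmp U V ((2 : K) • h - 1)) ∈ I j := by
    refine Pool.Agent.H76T.Fam.one hF hirr htr hhL (fun h0 => ?_) (a := 0) (b := -1) ?_
    · rw [h0, mul_zero] at hyy
      exact zero_ne_one hyy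
    · rw [hyy, zero_smul, add_zero]
      module
  -- conjugates of `h`
  have hconj : ∀ y y' : Matrix ι ι K, y ∈ Submonoid.closure {x | ∃ k ∈ 𝓗, ∃ t : K, t ≠ 0 ∧ x = 1 + (t - 1) • k} →
      y * y' = 1 → (y * h * y') * e = e * (y * h * y') ∧ phi (cmp U V ((2 : K) • (y * h * y') - 1)) ∈ I j₀ := by
    intro y y' hy hy1
    obtain ⟨hye, h1⟩ := conj_tgen hUV hVU par (hF.ideal j₀) hy
    have hy'e : y' * e = e * y' := inv_comm hy1 hye
    have h2 := h1 y' hy1 _ hj₀
    have h2e : ((2 : K) • h - 1) * e = e * ((2 : K) • h - 1) := by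
      rw [sub_mul, mul_sub, one_mul, mul_one, smul_mul_assoc, mul_smul_comm, hhe]
    refine ⟨?_, ?_⟩
    · calc (y * h * y') * e = y * h * (y' * e) := by rw [Matrix.mul_assoc]
        _ = y * h * (e * y') := by rw [hy'e]
        _ = y * (h * e) * y' := by simp only [Matrix.mul_assoc]
        _ = y * (e * h) * y' := by rw [hhe]
        _ = (y * e) * h * y' := by simp only [Matrix.mul_assoc]
        _ = (e * y) * h * y' := by rw [hye]
        _ = e * (y * h * y') := by simp only [Matrix.mul_assoc]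
    · have h3 : (2 : K) • (y * h * y') - 1 = y * ((2 : K) • h - 1) * y' := by
        rw [mul_sub, sub_mul, mul_one, hy1, mul_smul_comm, smul_mul_assoc]
      rw [h3, Pool.Agent.H76U.cmp_mul hUV hVU hy'e, Pool.Agent.H76U.cmp_mul hUV hVU h2e, map_mul, map_mul]
      exact h2
  -- the other ideals commute with everything
  have hother : ∀ j, j ≠ j₀ → ∀ Z ∈ I j, ∀ g ∈ Gs, g * e = e * g ∧ phi (cmp U V g) * Z = Z * phi (cmp U V g) := by
    intro j hj Z hZ g hg
    have hg1 := gen1 g hg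
    clear hg
    induction hg1 using Submonoid.closure_induction with
    | mem x hx =>
      obtain ⟨y, y', hy, hy1, t, ht, rfl⟩ := hx
      obtain ⟨h1, h2⟩ := hconj y y' hy hy1
      refine ⟨by rw [add_mul, mul_add, one_mul, mul_one, smul_mul_assoc, mul_smul_comm, h1], ?_⟩
      rw [cmp_par hUV hVU, add_mul, mul_add, smul_mul_assoc, smul_mul_assoc, mul_smul_comm, mul_smul_comm,
        hF.comm j₀ j (Ne.symm hj) _ h2 Z hZ, one_mul, mul_one]
    | one =>
      refine ⟨by rw [one_mul, mul_one], ?_⟩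
      rw [Pool.Agent.H76U.cmp_one hUV hVU, map_one, one_mul, mul_one]
    | mul a b _ _ iha ihb =>
      obtain ⟨ha, iha⟩ := iha
      obtain ⟨hb, ihb⟩ := ihb
      refine ⟨by rw [mul_assoc, hb, ← mul_assoc, ha, mul_assoc], ?_⟩
      rw [Pool.Agent.H76U.cmp_mul hUV hVU hb, map_mul, mul_assoc, ihb, ← mul_assoc, iha, mul_assoc]
  have hmat : ∀ X : Module.End K (Fin n → K), ∃ y : Matrix (Fin n) (Fin n) K, X = phi y := by
    intro X
    obtain ⟨y, rfl⟩ := (phi (ι := Fin n) (K := K)).surjective X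
    exact ⟨y, rfl⟩
  have hall : ∀ j, j = j₀ := by
    intro j
    by_contra hj
    apply hF.ne_bot j
    rw [Submodule.eq_bot_iff]
    intro Z hZ
    obtain ⟨z, rfl⟩ := hmat Z
    have h1 : ∀ g ∈ Gs, (U * z * V) * g = g * (U * z * V) := by
      intro g hg
      obtain ⟨hge, h2⟩ := hother j hj _ hZ g hg
      rw [← map_mul, ← map_mul] at h2
      have h3 := (phi (ι := Fin n) (K := K)).injective h2
      calc (U * z * V) * g = U * z * (V * g) := by rw [Matrix.mul_assoc]
        _ = U * z * (cmp U V g * V) := by rw [Pool.Agent.H76U.cmp_Q hUV hVU hge]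
        _ = U * (z * cmp U V g) * V := by simp only [Matrix.mul_assoc]
        _ = U * (cmp U V g * z) * V := by rw [h3]
        _ = (U * cmp U V g) * z * V := by simp only [Matrix.mul_assoc]
        _ = (g * U) * z * V := by rw [Pool.Agent.H76U.P_cmp hUV hVU hge]
        _ = g * (U * z * V) := by simp only [Matrix.mul_assoc]
    obtain ⟨c, hc⟩ := comm _ h1
    have h2 : z = c • 1 := by
      have h3 : V * (e * (U * z * V) * e) * U = z := by
        rw [hUV]
        calc V * (U * V * (U * z * V) * (U * V)) * U = (V * U) * (V * U) * z * (V * U) * (V * U) := by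
              simp only [Matrix.mul_assoc]
          _ = z := by rw [hVU]; simp only [Matrix.one_mul, Matrix.mul_one]
      have h4 : V * (c • e) * U = c • 1 := by
        rw [hUV, Matrix.mul_smul, Matrix.smul_mul]
        calc c • (V * (U * V) * U) = c • ((V * U) * (V * U)) := by simp only [Matrix.mul_assoc]
          _ = c • 1 := by rw [hVU, Matrix.one_mul]
      rw [← h3, hc, h4]
    have h5 := htr _ ((hF.ideal j).1 hZ)
    rw [h2, map_smul, map_one, map_smul, LinearMap.trace_one, smul_eq_mul, Module.finrank_fintype_fun_eq_card,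
      Fintype.card_fin, mul_eq_zero] at h5
    rcases h5 with h5 | h5
    · rw [h2, h5, zero_smul, map_zero]
    · exact absurd (Nat.cast_eq_zero.1 h5) hn.ne'
  have h1 : Subsingleton (Fin m) := ⟨fun a b => by rw [hall a, hall b]⟩
  have h2 : m ≤ 1 := by
    by_contra hcon
    have h3 := hall ⟨0, by omega⟩
    have h4 := hall ⟨1, by omega⟩
    have h5 := congrArg Fin.val (h3.trans h4.symm)
    exact absurd h5 (by norm_num)
  have h3 : 0 < m := lt_of_le_of_lt (Nat.zero_le _) j₀.2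
  omega

end

end Pool.Agent.H45Q
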