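import Pool.Agent.Lib.H45P.P8
import Pool.Agent.Lib.H45P.P7
import Pool.Agent.Lib.H45K.K14

/-!
# F3a: the arithmetic conditions of the third version over a number field, with one set of exceptions
-/

set_option autoImplicit false
set_option linter.unusedSectionVars false

open NumberField IsDedekindDomain

namespace Pool.Agent.H45Q

open CFT ST32 H45K H45P Pool.Agent.H76Q

theorem arithN {m : ℕ} (hm : m ≠ 0) {ι : Type} [Fintype ι] [DecidableEq ι]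
    {F : Type} [Field F] [NumberField F] {Ω : Type} [Field Ω] [CharZero Ω] [Algebra F Ω] [IsAlgClosure F Ω]
    (ρ : ∀ (l : ℕ) [Fact l.Prime], (Ω ≃ₐ[F] Ω) →* Matrix.GeneralLinearGroup ι ℚ_[l])
    (cont : ∀ (l : ℕ) [Fact l.Prime], Continuous fun g => (ρ l g : Matrix ι ι ℚ_[l]))
    (S : Finset (CFT.Pr F))
    (unr : ∀ (l : ℕ) [Fact l.Prime], ∀ v ∉ S, (l : 𝓞 F) ∉ v.asIdeal →
      ∀ P : Ideal (𝓞 Ω), Above v P → ∀ g : Ω ≃ₐ[F] Ω, Inert P g → ρ l g = 1)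
    (p : ℕ) [hpf : Fact p.Prime] (w : CFT.Pr F) (hwS : w ∉ S) (hwp : Ideal.absNorm w.asIdeal = p)
    (π : 𝓞 F) (hwπ : w.asIdeal = Ideal.span {π}) (hpos : ∀ τ : F →+* ℝ, 0 < τ π)
    (hcong : ∀ v ∈ S, π - 1 ∈ Ideal.span {(m : 𝓞 F) ^ 2} * v.asIdeal)
    (σ : Ω ≃ₐ[F] Ω) (hσ : IsFrv w σ) (R : Finset Ω) (hR : ∀ x, x ∈ R ↔ ∃ τ : F →+* Ω, τ (π : F) = x)
    (N : Set ℕ) (hNf : N.Finite) (hNm : ∀ l, l ∣ m → l ∈ N) (hpN : p ∈ N) :
    ArithM m R N ρ σ := by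
  classical
  have hp : p.Prime := hpf.out
  have hcl : IsAlgClosed Ω := IsAlgClosure.isAlgClosed F
  have halgF : Algebra.IsAlgebraic F Ω := IsAlgClosure.isAlgebraic
  have halg : Algebra.IsAlgebraic ℚ Ω := Algebra.IsAlgebraic.trans ℚ F Ω
  have hdv : CFT.dv (π : F) = Finsupp.single w 1 := H45K.dv_gen hwπ
  refine ⟨fun l hl hlN i hi => ?_, fun Γ hT hμ hΓR a ha0 ha h => chebm hm R _ hNf Γ hT hμ hΓR a ha0 ha h⟩
  have hlm : ¬ l ∣ m := fun h => hlN (hNm l h)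
  have hlp : l ≠ p := fun h => hlN (h ▸ hpN)
  refine reclm hm hlm (ρ l) (cont l) S (unr l) w hwS ?_ σ hσ (π : F) hdv hpos
      (fun u hu => pow_of_cong u hm π (hcong u hu)) i (fun τ => by
        obtain ⟨y, hy⟩ := hi _ ((hR _).2 ⟨τ, rfl⟩)
        exact ⟨y, hy⟩)
  intro hlw
  have hpw : ((p : ℕ) : 𝓞 F) ∈ w.asIdeal := by
    rw [← hwp]
    exact Ideal.absNorm_mem _
  have h1 : IsCoprime (l : ℤ) (p : ℤ) := by
    rw [Nat.isCoprime_iff_coprime]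
    exact (Nat.coprime_primes hl.out hp).2 hlp
  obtain ⟨u, t, hut⟩ := h1
  apply w.isPrime.ne_top
  rw [Ideal.eq_top_iff_one]
  have h3 : (1 : 𝓞 F) = (u : 𝓞 F) * (l : 𝓞 F) + (t : 𝓞 F) * (p : 𝓞 F) := by
    have := congrArg (fun t : ℤ => (t : 𝓞 F)) hut
    push_cast at this
    exact this.symm
  rw [h3]
  exact w.asIdeal.add_mem (w.asIdeal.mul_mem_left _ hlw) (w.asIdeal.mul_mem_left _ hpw)

/-- Every automorphism is, up to an odd power, in a decomposition group at a prime not in `N`. -/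
theorem dec_N {Ω : Type} [Field Ω] [CharZero Ω] [IsAlgClosed Ω] [Algebra.IsAlgebraic ℚ Ω] (N : Set ℕ)
    (hNf : N.Finite) (s : Ω ≃+* Ω) (T : Finset Ω) : ∃ u : ℕ, Odd u ∧ ∃ (l : ℕ) (_ : Fact l.Prime), l ∉ N ∧
      ∃ (i : Ω →+* AlgebraicClosure ℚ_[l]) (t : AlgebraicClosure ℚ_[l] ≃ₐ[ℚ_[l]] AlgebraicClosure ℚ_[l]),
        ∀ x ∈ T, t (i x) = i ((s ^ u) x) := by
  refine exists_dec N ?_ (fun Γ hT a _ ha h => ?_) s T
  · by_contra hcon
    push Not at hcon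
    exact Nat.infinite_setOfPred_prime (hNf.subset fun l hl => hcon l hl)
  · obtain ⟨R', hR', c, hc, hac⟩ := cheb (∅ : Finset Ω) N hNf Γ hT (by simp) a ha
      (fun l _ hl i hi _ => h l hl i hi)
    rw [Finset.subset_empty] at hR'
    rw [hR', Finset.prod_empty, one_mul] at hac
    exact ⟨c, hc, hac⟩

end Pool.Agent.H45Q
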