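import Pool.Agent.Lib.H45Q.F3a
import Pool.Agent.Lib.H76Q.FinalF2
import Pool.Agent.Lib.H76Y.Y1

/-!
# F3b: the conditions of the third version over a number field
-/

set_option autoImplicit false
set_option linter.unusedSectionVars false
namespace Pool.Agent.H45Q
open Module Matrix Polynomial Pool.Agent.H53Toric NumberField ST32
open Pool.Agent.H76Q
open Pool.Agent.H76P (properProj EigOn)
open Pool.Agent.H76U (IsSplitting)
open Pool.Agent.H76RM (spanK similD)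

/-- The conditions at `p`, third version: `φ` is the inverse of the crystalline Frobenius, `μ` a
Hodge-Tate projector which commutes with it, `ν` the logarithm of the absolute values of `φ`. -/
structure CrysF3 {G : Type*} [Group G] {ι : Type*} [Fintype ι] [DecidableEq ι]
    (p : ℕ) [Fact p.Prime] (ρ : G →* Matrix.GeneralLinearGroup ι ℚ_[p])
    {M : Type*} [Field M] {m : ℕ} (e : Fin m → Matrix ι ι M) (σ : G)
    (φ μ ν : Matrix ι ι (AlgebraicClosure ℚ_[p])) (v : AlgebraicClosure ℚ_[p] → ℚ) : Prop where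
  mu : μ ∈ properProj (AlgebraicClosure ℚ_[p]) ρ
  muphi : μ * φ = φ * μ
  phigen : φ ∈ tgen (AlgebraicClosure ℚ_[p]) ρ
  nu : ∀ (c : AlgebraicClosure ℚ_[p]) (z : ι → AlgebraicClosure ℚ_[p]), φ *ᵥ z = c • z →
    ν *ᵥ z = (v c : AlgebraicClosure ℚ_[p]) • z
  newton : ∀ (i : M →+* AlgebraicClosure ℚ_[p]) (b : Fin m) (H : Subgroup G), H.FiniteIndex →
    ∀ I : Submodule (AlgebraicClosure ℚ_[p]) (Matrix ι ι (AlgebraicClosure ℚ_[p])),
      adStable (zlie (img (AlgebraicClosure ℚ_[p]) ρ H)) I →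
      ((2 : AlgebraicClosure ℚ_[p]) • μ - 1) * (e b).map i ∈ I →
        ∃ c : AlgebraicClosure ℚ_[p], (ν - c • 1) * (e b).map i ∈ I
  unr : ∃ ξ ξ' : Matrix ι ι (AlgebraicClosure ℚ_[p]), ξ ∈ tgen (AlgebraicClosure ℚ_[p]) ρ ∧
    ξ * ξ' = 1 ∧ ∀ (H : Subgroup G), H.FiniteIndex →
      ∀ I : Submodule (AlgebraicClosure ℚ_[p]) (Matrix ι ι (AlgebraicClosure ℚ_[p])),
        adStable (zlie (img (AlgebraicClosure ℚ_[p]) ρ H)) I → (∀ X ∈ I, μ * X = X * μ) →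
        ∀ X ∈ I, ((ρ σ)⁻¹.1.map (algebraMap ℚ_[p] _) * (ξ * φ * ξ')) * X =
          X * ((ρ σ)⁻¹.1.map (algebraMap ℚ_[p] _) * (ξ * φ * ξ'))
  int : (ρ σ).1.map (algebraMap ℚ_[p] _) ∈ Submonoid.closure
    {x | ∃ h ∈ properProj (AlgebraicClosure ℚ_[p]) ρ, IntMat v h ∧
      ∃ t : AlgebraicClosure ℚ_[p], t ≠ 0 ∧ v t = 0 ∧ x = 1 + (t - 1) • h}
  eint : ∀ (i : M →+* AlgebraicClosure ℚ_[p]) (b : Fin m), IntMat v ((e b).map i)
  dphi : ∀ δ ∈ inertia p v, φ.map δ = φ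
  dideal : ∀ δ ∈ inertia p v, ∀ H : Subgroup G, H.FiniteIndex →
    ∀ I : Submodule (AlgebraicClosure ℚ_[p]) (Matrix ι ι (AlgebraicClosure ℚ_[p])),
      I ≤ zlie (img (AlgebraicClosure ℚ_[p]) ρ H) →
      adStable (zlie (img (AlgebraicClosure ℚ_[p]) ρ H)) I → ∀ X ∈ I, ∀ Y ∈ I,
        (X * Y - Y * X).map δ ∈ I

theorem core3_of {ι : Type} [Fintype ι] [DecidableEq ι] {ψ : Matrix ι ι ℚ} (hψ : ψᵀ = -ψ)
    (hψ0 : ψ.det ≠ 0) (D : Subalgebra ℚ (Matrix ι ι ℚ)) {M : Type} [Field M] [NumberField M]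
    {m : ℕ} (bar : Fin m → Fin m) (e : Fin m → Matrix ι ι M) (hspl : IsSplitting D ψ bar e)
    {F : Type} [Field F] [NumberField F] {Ω : Type} [Field Ω] [CharZero Ω] [Algebra F Ω] [IsAlgClosure F Ω]
    [IsAlgClosed Ω] [Algebra.IsAlgebraic ℚ Ω]
    (j : M →+* Ω)
    (ρ : ∀ (l : ℕ) [Fact l.Prime], (Ω ≃ₐ[F] Ω) →* Matrix.GeneralLinearGroup ι ℚ_[l])
    (cont : ∀ (l : ℕ) [Fact l.Prime], Continuous fun g => (ρ l g : Matrix ι ι ℚ_[l]))
    (lin : ∀ (l : ℕ) [Fact l.Prime], ∀ g : Ω ≃ₐ[F] Ω, ∀ d ∈ D,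
      (ρ l g).1 * d.map (algebraMap ℚ ℚ_[l]) = d.map (algebraMap ℚ ℚ_[l]) * (ρ l g).1)
    (sim : ∀ (l : ℕ) [Fact l.Prime], ∀ g : Ω ≃ₐ[F] Ω, ∃ c : ℚ_[l],
      (ρ l g).1ᵀ * ψ.map (algebraMap ℚ ℚ_[l]) * (ρ l g).1 = c • ψ.map (algebraMap ℚ ℚ_[l]))
    (semis : ∀ (l : ℕ) [Fact l.Prime], ∀ H : Subgroup (Ω ≃ₐ[F] Ω), H.FiniteIndex →
      ∀ W : Submodule (AlgebraicClosure ℚ_[l]) (ι → AlgebraicClosure ℚ_[l]),
      (∀ s ∈ img (AlgebraicClosure ℚ_[l]) (ρ l) H, ∀ w ∈ W, s *ᵥ w ∈ W) →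
      ∃ W' : Submodule (AlgebraicClosure ℚ_[l]) (ι → AlgebraicClosure ℚ_[l]),
        (∀ s ∈ img (AlgebraicClosure ℚ_[l]) (ρ l) H, ∀ w ∈ W', s *ᵥ w ∈ W') ∧ IsCompl W W')
    (commt : ∀ (l : ℕ) [Fact l.Prime], ∀ H : Subgroup (Ω ≃ₐ[F] Ω), H.FiniteIndex →
      ∀ y : Matrix ι ι (AlgebraicClosure ℚ_[l]),
      (∀ s ∈ img (AlgebraicClosure ℚ_[l]) (ρ l) H, y * s = s * y) →
        y ∈ spanK (AlgebraicClosure ℚ_[l]) D)
    (gen : ∀ (l : ℕ) [Fact l.Prime], ∀ g : Ω ≃ₐ[F] Ω,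
      (ρ l g).1.map (algebraMap ℚ_[l] (AlgebraicClosure ℚ_[l])) ∈
        tgen (AlgebraicClosure ℚ_[l]) (ρ l))
    (bal : ∀ (l : ℕ) [Fact l.Prime], ∀ h ∈ properProj (AlgebraicClosure ℚ_[l]) (ρ l),
      ∀ (i : M →+* AlgebraicClosure ℚ_[l]) (b : Fin m),
        2 * (h * (e b).map i).rank = (e b).rank)
    -- the places of bad reduction
    (S : Finset (CFT.Pr F))
    (unr : ∀ (l : ℕ) [Fact l.Prime], ∀ v ∉ S, (l : 𝓞 F) ∉ v.asIdeal →
      ∀ P : Ideal (𝓞 Ω), Above v P → ∀ g : Ω ≃ₐ[F] Ω, Inert P g → ρ l g = 1)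
    -- the place `w`
    (p : ℕ) [Fact p.Prime] (w : CFT.Pr F) (hwS : w ∉ S)
    (hwp : Ideal.absNorm w.asIdeal = p)
    (π : 𝓞 F) (hwπ : w.asIdeal = Ideal.span {π}) (hpos : ∀ τ : F →+* ℝ, 0 < τ π)
    (hpe : ∀ b, ¬ p ∣ (e b).rank)
    (hcong : ∀ b, ∀ v ∈ S, π - 1 ∈ Ideal.span {((e b).rank : 𝓞 F) ^ 2} * v.asIdeal)
    (hdF : ¬ (p : ℤ) ∣ NumberField.discr F) (hdM : ¬ (p : ℤ) ∣ NumberField.discr M)
    (σ : Ω ≃ₐ[F] Ω) (hσ : IsFrv w σ)
    (f : ℤ[X]) (hf : f.Monic) (weil : ∀ z : ℂ, aeval z f = 0 → ‖z‖ ^ 2 = p)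
    (χ : Fin m → M[X])
    (mult : ∀ (l : ℕ) [Fact l.Prime], l ≠ p →
      (ρ l σ).1ᵀ * ψ.map (algebraMap ℚ ℚ_[l]) * (ρ l σ).1 = (p : ℚ_[l]) • ψ.map (algebraMap ℚ ℚ_[l]))
    (char : ∀ (l : ℕ) [Fact l.Prime], l ≠ p →
      (ρ l σ).1.charpoly = f.map (algebraMap ℤ ℚ_[l]))
    (frob : ∀ (l : ℕ) [Fact l.Prime], l ≠ p →
      FrobT (AlgebraicClosure ℚ_[l]) (ρ l) e χ
        ((ρ l σ).1.map (algebraMap ℚ_[l] (AlgebraicClosure ℚ_[l]))))
    (neat : ∀ b, ∀ a a' : Ω, (χ b).eval₂ j a = 0 → (χ b).eval₂ j a' = 0 →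
      ∀ n : ℕ, n ≠ 0 → a ^ n = a' ^ n → a = a')
    -- the representation at `p`
    (v : AlgebraicClosure ℚ_[p] → ℚ) (hv : IsPVal p v)
    (φ μ ν : Matrix ι ι (AlgebraicClosure ℚ_[p]))
    (frobp : FrobT (AlgebraicClosure ℚ_[p]) (ρ p) e χ φ)
    (multp : φᵀ * ψ.map (algebraMap ℚ (AlgebraicClosure ℚ_[p])) * φ =
      (p : AlgebraicClosure ℚ_[p]) • ψ.map (algebraMap ℚ (AlgebraicClosure ℚ_[p])))
    (crys : CrysF3 p (ρ p) e σ φ μ ν v)
    (R : Finset Ω) (hR : ∀ x, x ∈ R ↔ ∃ τ : F →+* Ω, τ (π : F) = x) :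
    (∀ b, ∀ a : Ω, (χ b).eval₂ j a = 0 → aeval a f = 0) ∧
    H76Y.Core3 ψ D bar e ρ p σ (p : ℚ) χ φ μ ν v (inertia p v) j R
      ({l | l ∣ (∏ b, (e b).rank) * p} : Set ℕ) := by
  classical
  have hp : p.Prime := Fact.out
  have hdv : CFT.dv (π : F) = Finsupp.single w 1 := H45K.dv_gen hwπ
  have hvval : IsVal v := H45K.pval_isVal hv
  have hvp : v (p : AlgebraicClosure ℚ_[p]) = 1 := H45K.pval_p hv
  have hvd : ∀ x : AlgebraicClosure ℚ_[p], x ≠ 0 → (∀ δ ∈ inertia p v, δ x = x) → ∃ n : ℤ, v x = n := H45K.pval_dval hv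
  have hval : H45K.IsV v := ⟨hvval.mul, hvval.add⟩
  have crysP : H76Y.CrysN (AlgebraicClosure ℚ_[p]) (ρ p) e σ φ μ ν v (inertia p v) :=
    { val := hvval
      mu := crys.mu
      muphi := crys.muphi
      phigen := crys.phigen
      nu := crys.nu
      newton := crys.newton
      unr := crys.unr
      int := crys.int
      eint := crys.eint
      dfix := fun δ hδ => hδ.1
      dphi := crys.dphi
      dM := fun δ hδ i c => H45K.rfix hval hp hvp M hdM δ hδ.2 i c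
      dideal := crys.dideal
      dval := hvd }
  have hRfix : ∀ i : Ω →+* AlgebraicClosure ℚ_[p], ∀ r ∈ R, ∀ δ : AlgebraicClosure ℚ_[p] ≃+* AlgebraicClosure ℚ_[p],
      δ ∈ inertia p v → δ (i r) = i r := by
    intro i r hr δ hδ
    obtain ⟨τ, rfl⟩ := (hR r).1 hr
    exact H45K.rfix hval hp hvp F hdF δ hδ.2 (i.comp τ) (π : F)
  -- roots of F_b are roots of f
  have hroot : ∀ b, ∀ a : Ω, (χ b).eval₂ j a = 0 → aeval a f = 0 := by
    intro b a ha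
    obtain ⟨l, hl, hlp⟩ : ∃ l : ℕ, l.Prime ∧ l ≠ p := by
      by_cases h : p = 2
      · exact ⟨3, Nat.prime_three, by rw [h]; norm_num⟩
      · exact ⟨2, Nat.prime_two, fun h' => h h'.symm⟩
    have hlf : Fact l.Prime := ⟨hl⟩
    let i : Ω →ₐ[ℚ] AlgebraicClosure ℚ_[l] := IsAlgClosed.lift
    have h1 := (frob l hlp).eig (i.toRingHom.comp j) b (i.toRingHom a)
    rw [← Polynomial.hom_eval₂, ha, map_zero] at h1
    obtain ⟨z, hz, -, hz2⟩ := h1.2 rfl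
    have h2 := H45K.root_of_eig hz hz2
    rw [Matrix.charpoly_map, char l hlp, Polynomial.map_map, Polynomial.eval_map] at h2
    have h3 : (algebraMap ℚ_[l] (AlgebraicClosure ℚ_[l])).comp (algebraMap ℤ ℚ_[l]) = i.toRingHom.comp (algebraMap ℤ Ω) :=
      RingHom.ext_int _ _
    rw [h3, ← Polynomial.hom_eval₂] at h2
    rw [aeval_def]
    exact (map_eq_zero i.toRingHom).1 h2
  refine ⟨hroot, ?_⟩
  have hpQ : (∀ n : ℕ, n ≠ 0 → (p : ℚ) ^ n ≠ 1) := by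
    intro n hn
    have h1 : (1 : ℚ) < p := by exact_mod_cast hp.one_lt
    exact (one_lt_pow₀ h1 hn).ne'
  have hr0 : ∀ b, (e b).rank ≠ 0 := fun b h => hpe b (h ▸ dvd_zero p)
  have hNf : ({l | l ∣ (∏ b, (e b).rank) * p} : Set ℕ).Finite := by
    refine (Finset.finite_toSet (Nat.divisors ((∏ b, (e b).rank) * p))).subset fun l hl => ?_
    rw [Finset.mem_coe, Nat.mem_divisors]
    exact ⟨hl, Nat.mul_ne_zero (Finset.prod_ne_zero_iff.2 fun b _ => hr0 b) hp.ne_zero⟩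
  exact
    { hψ := hψ
      hψ0 := hψ0
      hspl := hspl
      lin := lin
      sim := sim
      semis := semis
      commt := commt
      gen := gen
      bal := bal
      hq := hpQ
      mult := fun l _ hl => by
        rw [map_natCast]
        exact mult l hl
      frob := frob
      frobp := frobp
      multp := by
        rw [map_natCast]
        exact multp
      crys := crysP
      vq := by
        rw [map_natCast]
        exact hvp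
      hN := dvd_mul_left p _
      arith := fun b => arithN (hr0 b) ρ cont S unr p w hwS hwp π hwπ hpos (hcong b) σ hσ R hR _ hNf
        (fun l hl => (hl.trans (Finset.dvd_prod_of_mem (fun b => (e b).rank) (Finset.mem_univ b))).mul_right p) (dvd_mul_left p _)
      munr := fun b δ hδ z hz => H45P.mu_fix hval hp hvp (hpe b) δ hδ.2 z hz
      Rstab := fun s r hr => H45K.R_stab hR s hr
      Rval := fun i => H45K.rval hval hvp hdv hp hwp hR i fun r hr => by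
        refine hvd (i r) ?_ (fun δ hδ => hRfix i r hr δ hδ)
        obtain ⟨τ, rfl⟩ := (hR r).1 hr
        rw [Ne, map_eq_zero, map_eq_zero]
        exact H45K.pi_ne hdv
      Rfix := hRfix
      Rtrans := fun r hr r' hr' => by
        obtain ⟨τ, rfl⟩ := (hR r).1 hr
        obtain ⟨τ', rfl⟩ := (hR r').1 hr'
        obtain ⟨s, hs⟩ := H45K.exists_aut τ τ'
        exact ⟨s, hs (π : F)⟩
      dec := fun s T => dec_N _ hNf s T
      gal := fun b a a' ha ha' hne => by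
        refine H45K.gal hval hp hvp f hf weil (hroot b a ha) (hroot b a' ha') fun n hn h1 => ?_
        rw [div_pow] at h1
        by_cases h0 : a' = 0
        · rw [h0, zero_pow hn, div_zero] at h1
          exact zero_ne_one h1
        · exact hne (neat b a a' ha ha' n hn (by rwa [div_eq_one_iff_eq (pow_ne_zero _ h0)] at h1)) }

/-- A decomposition of `R` gives a decomposition of the set of embeddings. -/
theorem mum_of_part {ι : Type} [Fintype ι] [DecidableEq ι] {D : Subalgebra ℚ (Matrix ι ι ℚ)}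
    {M : Type} [Field M] {F : Type} [Field F] [NumberField F] {Ω : Type} [Field Ω] [CharZero Ω]
    {j : M →+* Ω} {t : Prop} {e e' : Matrix ι ι M} {χ : M[X]} {p : ℕ} (π : 𝓞 F)
    {f : ℤ[X]} (weil : ∀ z : ℂ, aeval z f = 0 → ‖z‖ ^ 2 = p)
    (hroot : ∀ a : Ω, χ.eval₂ j a = 0 → aeval a f = 0)
    {R : Finset Ω} (hR : ∀ x, x ∈ R ↔ ∃ τ : F →+* Ω, τ (π : F) = x) {k : ℕ} {c : Ω → Fin k}
    {A : Fin k → ℕ} (hPD : H76Y.PartN D j t e e' χ (p : ℚ) R c A) :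
    H76Y.MumN D j t e e' F (fun τ : F →+* Ω => c (τ (π : F))) A := by
  refine ⟨fun x => ?_, hPD.even, fun s hs => ?_⟩
  · obtain ⟨r, hr, hcr⟩ := hPD.surj x
    obtain ⟨τ, rfl⟩ := (hR r).1 hr
    exact ⟨τ, hcr⟩
  · obtain ⟨π₀, h1, h2, h3, h4⟩ := hPD.perm s hs
    refine ⟨π₀, fun τ => h1 _ ((hR _).2 ⟨τ, rfl⟩), h2, fun ⟨κ, hκ⟩ => h3 fun y hy => ?_, h4⟩
    apply κ.injective
    have h5 : aeval (κ y) f = 0 := by
      have h6 := hroot y hy
      have h7 : aeval (κ y) f = κ (aeval y f) := by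
        rw [aeval_def, aeval_def]
        have h8 : (algebraMap ℤ ℂ) = κ.comp (algebraMap ℤ Ω) := RingHom.ext_int _ _
        rw [h8]
        exact (hom_eval₂ f (algebraMap ℤ Ω) κ y).symm
      rw [h7, h6, map_zero]
    rw [map_mul, hκ, mul_comm, Complex.mul_conj, Complex.normSq_eq_norm_sq, weil _ h5, map_natCast, map_natCast]
    push_cast
    rfl

end Pool.Agent.H45Q
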