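import Pool.Agent.Lib.H76Y.BAL
import Pool.Agent.Lib.H76U.Conj
import Pool.Agent.Lib.H76V.VC1

/-!
# F3d: the balance for a component which is its own conjugate
-/

set_option autoImplicit false
set_option linter.unusedSectionVars false
namespace Pool.Agent.H45Q
open Module Matrix Polynomial Pool.Agent.H53Toric
open Pool.Agent.H76Q
open Pool.Agent.H76P (properProj EigOn)
open Pool.Agent.H76U (IsSplitting)
open Pool.Agent.H76RM (spanK similD)

theorem bal_of {ι : Type*} [Fintype ι] [DecidableEq ι] {L K : Type*} [Field L] [Field K] [CharZero L]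
    [CharZero K] [Algebra L K] {ψ : Matrix ι ι ℚ} (hψ : ψᵀ = -ψ) (hψ0 : ψ.det ≠ 0)
    {D : Subalgebra ℚ (Matrix ι ι ℚ)} {M : Type*} [Field M] [CharZero M] {m : ℕ} {bar : Fin m → Fin m}
    {e : Fin m → Matrix ι ι M} (hspl : IsSplitting D ψ bar e) {G : Type*} [Group G]
    (ρ : G →* Matrix.GeneralLinearGroup ι L)
    (lin : ∀ g : G, ∀ d ∈ D, (ρ g).1 * d.map (algebraMap ℚ L) = d.map (algebraMap ℚ L) * (ρ g).1)
    (sim : ∀ g : G, ∃ c : L,
      (ρ g).1ᵀ * ψ.map (algebraMap ℚ L) * (ρ g).1 = c • ψ.map (algebraMap ℚ L))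
    {h : Matrix ι ι K} (hh : h ∈ properProj K ρ) (i : M →+* K) {b : Fin m} (hb : bar b = b) :
    2 * (h * (e b).map i).rank = (e b).rank := by
  obtain ⟨hJ, hdet⟩ := gram_basic hψ hψ0 K
  obtain ⟨J, hJdef⟩ : ∃ J : Matrix ι ι K, J = ψ.map (algebraMap ℚ K) := ⟨_, rfl⟩
  rw [← hJdef] at hJ hdet
  have hspl' := hspl.map i
  have hlinK : ∀ σ : G, ∀ d ∈ D, (ρ σ).1.map (algebraMap L K) * d.map (algebraMap ℚ K) =
      d.map (algebraMap ℚ K) * (ρ σ).1.map (algebraMap L K) := by
    intro σ d hd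
    have h1 := congrArg (fun m : Matrix ι ι L => m.map (algebraMap L K)) (lin σ d hd)
    have h2 : (d.map (algebraMap ℚ L)).map (algebraMap L K) = d.map (algebraMap ℚ K) := by
      ext i j
      simp
    simp only [Matrix.map_mul] at h1
    rw [h2] at h1
    exact h1
  have hsimI : ∀ s ∈ img K ρ ⊤, ∃ c : K, sᵀ * J * s = c • J := by
    rintro _ ⟨y, -, rfl⟩
    obtain ⟨c, hc⟩ := sim y
    rw [hJdef]
    exact ⟨_, sim_map hc⟩
  have hb1 : (1 : Matrix ι ι K) ≠ 0 := by
    intro h0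
    apply hh.2.1
    rw [← mul_one h, h0, mul_zero]
  obtain ⟨k, l, hkl⟩ : ∃ k l, J k l ≠ 0 := by
    by_contra hcon
    push Not at hcon
    have h3 : J = 0 := by
      ext i j
      exact hcon i j
    apply hb1
    rw [← Matrix.nonsing_inv_mul _ hdet, h3, Matrix.mul_zero]
  have hs := (proj_sim' hdet hkl hsimI hh.1 hh.2.1 hh.2.2).2
  have hcom : ∀ s ∈ img K ρ ⊤, s * (e b).map i = (e b).map i * s := by
    rintro _ ⟨y, -, rfl⟩
    refine Submodule.span_induction (p := fun z _ => (ρ y).1.map (algebraMap L K) * z =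
      z * (ρ y).1.map (algebraMap L K)) ?_ ?_ ?_ ?_ (hspl'.mem b)
    · rintro _ ⟨d, hd, rfl⟩
      exact hlinK y d hd
    · rw [Matrix.mul_zero, Matrix.zero_mul]
    · intro y y' _ _ h7 h8
      rw [Matrix.mul_add, Matrix.add_mul, h7, h8]
    · intro c y _ h7
      rw [Matrix.mul_smul, Matrix.smul_mul, h7]
  have hhe : h * (e b).map i = (e b).map i * h := by
    have h1 := H76RM.zar_commute hcom (hh.1.2 2 two_ne_zero)
    rw [add_mul, mul_add, one_mul, mul_one, smul_mul_assoc, mul_smul_comm] at h1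
    have h3 := add_left_cancel h1
    have h4 : ((2 : K) - 1) = 1 := by norm_num
    rwa [h4, one_smul, one_smul] at h3
  have hadj : ((e b).map i)ᵀ * J = J * (e b).map i := by
    have h1 := hspl'.adj b
    rw [hb, ← hJdef] at h1
    exact h1
  have h1 := H76Y.bal_self hdet (hspl'.idem b) hadj hh.1.1 hhe hs
  rw [h1, H76U.rank_idem_map (hspl.idem b) i]

end Pool.Agent.H45Q
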