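import Pool.Agent.Lib.H45Q.S3
import Pool.Agent.Lib.H76Y.W11

/-!
# S5: the component theorem of the third version with one class of Hodge-Tate cocharacters
-/

set_option autoImplicit false
set_option linter.unusedSectionVars false
namespace Pool.Agent.H45Q
open Module Matrix Polynomial Pool.Agent.H53Toric Pool.Agent.H76P Pool.Agent.H76Q
open Pool.Agent.H76T (IsIdeal Fam Lc)
open Pool.Agent.H76V (Cmp)
open Pool.Agent.H76U (cmp preL IsSplitting)
open Pool.Agent.H76RM (spanK similD)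

section
variable {κ : Type*} {K : Type*} [Field K] [CharZero K] [Fintype κ] [DecidableEq κ]
  {L : Submodule K (Module.End K (κ → K))} {J : Matrix κ κ K} [IsAlgClosed K] [Nonempty κ]

/-- The configuration of the whole symplectic algebra is the space of all odd functions. -/
theorem exists_odd (h : TS L J) (hfull : ∀ X : Module.End K (κ → K), adjE J X = -X → X ∈ L) :
    ∃ bar : Equiv.Perm κ, (∀ k, bar (bar k) = k) ∧ (∀ k, bar k ≠ k) ∧
      (∀ f : κ → ℚ, (∀ k, f (bar k) = -f k) → f ∈ Yo L) ∧ ∀ f ∈ Yo L, ∀ k, f (bar k) = -f k := by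
  have hex : ∀ k, ∃ l, J k l ≠ 0 := by
    intro k
    by_contra hcon
    push Not at hcon
    have h3 := h.cmp.Jd
    rw [Matrix.det_eq_zero_of_row_eq_zero k hcon] at h3
    exact not_isUnit_zero h3
  choose b hb using hex
  have hopp : ∀ k l, J k l ≠ 0 → ∀ f ∈ Yo L, f l = -f k := fun k l hkl f hf =>
    Pool.Agent.Lib.H86E.opp h.cmp hf hkl
  have huniq : ∀ k l l', J k l ≠ 0 → J k l' ≠ 0 → l = l' := by
    intro k l l' h1 h2
    by_contra hne
    obtain ⟨f, hf, hf2⟩ := h.sep l l' hne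
    exact hf2 (by rw [hopp k l h1 f hf, hopp k l' h2 f hf])
  have hsym : ∀ k l, J k l ≠ 0 → J l k ≠ 0 := by
    intro k l hkl h0
    have h1 := congrFun (congrFun h.cmp.Jt k) l
    rw [Matrix.transpose_apply, Matrix.neg_apply, h0] at h1
    exact hkl (neg_eq_zero.1 h1.symm)
  have hbb : ∀ k, b (b k) = k := fun k => huniq (b k) _ _ (hb (b k)) (hsym _ _ (hb k))
  refine ⟨⟨b, b, hbb, hbb⟩, hbb, fun k hk => ?_, fun f hf => ?_, fun f hf k => hopp k (b k) (hb k) f hf⟩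
  · have h1 := congrFun (congrFun h.cmp.Jt k) k
    rw [Matrix.transpose_apply, Matrix.neg_apply] at h1
    have h2 := hb k
    have h3 : b k = k := hk
    rw [h3] at h2
    exact h2 (self_eq_neg.1 h1)
  · refine h.diag f (hfull _ (Pool.Agent.Lib.H86E.skew_of_opp h.cmp fun k l hkl => ?_))
    rw [huniq k l (b k) hkl (hb k)]
    exact hf k

end

section
variable {ι : Type*} [Fintype ι] [DecidableEq ι] {ψ : Matrix ι ι ℚ}
    {D : Subalgebra ℚ (Matrix ι ι ℚ)} {M : Type*} [Field M] [NumberField M]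
    {m : ℕ} {bar : Fin m → Fin m} {e : Fin m → Matrix ι ι M} {G : Type*} [Group G]
    {ρ : ∀ (l : ℕ) [Fact l.Prime], G →* Matrix.GeneralLinearGroup ι ℚ_[l]}
    {p : ℕ} [Fact p.Prime] {σ : G} {q : ℚ} {F : Fin m → M[X]}
    {φ μ ν : Matrix ι ι (AlgebraicClosure ℚ_[p])} {v : AlgebraicClosure ℚ_[p] → ℚ}
    {Δ : Set (AlgebraicClosure ℚ_[p] ≃+* AlgebraicClosure ℚ_[p])}
    {Ω : Type*} [Field Ω] [CharZero Ω] [IsAlgClosed Ω] [Algebra.IsAlgebraic ℚ Ω] {j : M →+* Ω}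
    {R : Finset Ω} {N : Set ℕ} (C : H76Y.Core3 ψ D bar e ρ p σ q F φ μ ν v Δ j R N)

include C

/-- Local data at any prime. -/
theorem loc_any3 (b : Fin m) {n : ℕ} {a : Fin n → Ω} (ha : Function.Injective a)
    (hroot : ∀ y : Ω, (F b).eval₂ j y = 0 ↔ ∃ k, y = a k)
    (l : ℕ) [hl : Fact l.Prime] (i : Ω →+* AlgebraicClosure ℚ_[l]) :
    ∃ (H₀ : Subgroup G) (U : Matrix ι (Fin n) (AlgebraicClosure ℚ_[l]))
      (V : Matrix (Fin n) ι (AlgebraicClosure ℚ_[l])) (x : Matrix ι ι (AlgebraicClosure ℚ_[l])), H₀.FiniteIndex ∧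
      H76Y.LocN (bar b = b) (ψ.map (algebraMap ℚ (AlgebraicClosure ℚ_[l]))) (img (AlgebraicClosure ℚ_[l]) (ρ l) H₀)
        (properProj (AlgebraicClosure ℚ_[l]) (ρ l)) ((e b).map (i.comp j)) x
        (algebraMap ℚ (AlgebraicClosure ℚ_[l]) q) U V (fun k => i (a k)) (YS a) := by
  by_cases hlp : l = p
  · subst hlp
    obtain ⟨H₀, U, V, h1, h2⟩ := C.locp b ha hroot i
    exact ⟨H₀, U, V, _, h1, h2⟩
  · obtain ⟨H₀, U, V, h1, h2⟩ := C.locl b ha hroot l hlp i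
    exact ⟨H₀, U, V, _, h1, h2⟩

/-- **One class: at one prime all components are simple.** -/
theorem simple3 (hg : Gen1 ρ) (b : Fin m) {n : ℕ} {a : Fin n → Ω} (ha : Function.Injective a)
    (hroot : ∀ y : Ω, (F b).eval₂ j y = 0 ↔ ∃ k, y = a k) :
    ∃ (l : ℕ) (_ : Fact l.Prime) (L : Submodule (AlgebraicClosure ℚ_[l])
        (Module.End (AlgebraicClosure ℚ_[l]) (Fin n → AlgebraicClosure ℚ_[l]))),
      0 < n ∧ H76Y.TM L ∧ H76Y.Cls (bar b = b) L ∧ Yo L = YS a ∧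
      ∃ I : Fin 1 → Submodule (AlgebraicClosure ℚ_[l]) (Module.End (AlgebraicClosure ℚ_[l]) (Fin n → AlgebraicClosure ℚ_[l])),
        Fam L I := by
  obtain ⟨l, hl, h, hh, hgen⟩ := hg
  let i : Ω →+* AlgebraicClosure ℚ_[l] :=
    (IsAlgClosed.lift (R := ℚ) (S := Ω) (M := AlgebraicClosure ℚ_[l])).toRingHom
  obtain ⟨H₀, U, V, x, -, hL⟩ := loc_any3 C b ha hroot l i
  refine ⟨l, hl, _, hL.pos, hL.ts, hL.cls, hL.yo, ?_⟩
  have hspl : IsSplitting D ψ bar (fun c => (e c).map (i.comp j)) := C.hspl.map (i.comp j)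
  have hne : Nonempty (Fin n) := ⟨⟨0, hL.pos⟩⟩
  obtain ⟨m', I, hF⟩ := Pool.Agent.H76T.exists_fam hL.ts.cmp.lie hL.ts.cmp.irr hL.ts.cmp.tr
  have h1 : m' = 1 := by
    refine fam_one (Gs := img (AlgebraicClosure ℚ_[l]) (ρ l) ⊤) hL.pos hL.UV hL.VU hL.ts.cmp.irr hL.ts.cmp.tr
      (fun k hk => ⟨(hL.par k hk).1, (hL.par k hk).2.1, (hL.par k hk).2.2.2⟩)
      (fun Z hZ => hspl.corner b Z (C.commt l ⊤ inferInstance Z hZ)) hh ?_ hF
    rintro _ ⟨g, -, rfl⟩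
    exact hgen g
  subst h1
  exact ⟨I, hF⟩

/-- The components of rank `2 ^ k` with a form. -/
theorem odd_two3 (hg : Gen1 ρ) (b : Fin m) (hb : bar b = b) {n : ℕ} {a : Fin n → Ω} (ha : Function.Injective a)
    (hroot : ∀ y : Ω, (F b).eval₂ j y = 0 ↔ ∃ k, y = a k) {k : ℕ} (hk : n = 2 ^ k)
    (hk' : ¬ (5 ≤ k ∧ (k % 4 = 1 ∨ k % 4 = 2))) :
    ∃ bar' : Equiv.Perm (Fin n), (∀ k, bar' (bar' k) = k) ∧ (∀ k, bar' k ≠ k) ∧
      (∀ f : Fin n → ℚ, (∀ k, f (bar' k) = -f k) → f ∈ YS a) ∧ ∀ f ∈ YS a, ∀ k, f (bar' k) = -f k := by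
  obtain ⟨l, hl, L, hn, hT, hcl, hY, I, hF⟩ := simple3 C hg b ha hroot
  have hne : Nonempty (Fin n) := ⟨⟨0, hn⟩⟩
  obtain ⟨J, hTS⟩ := H76Y.ts_of_sy hT (hcl.1 hb)
  rw [← hY]
  refine exists_odd hTS ?_
  rcases Cmp.simple hTS.cmp hF with h2 | ⟨n', hn', hn2', hn3', -⟩ | ⟨k', hk1, hk2, hk3, -⟩
  · exact h2
  · exfalso
    rw [Module.finrank_fintype_fun_eq_card, Fintype.card_fin, hk] at hn3'
    have h3 : k = n' := Nat.pow_right_injective le_rfl hn3'
    subst h3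
    exact hk' ⟨hn', hn2'⟩
  · exfalso
    rw [Module.finrank_fintype_fun_eq_card, Fintype.card_fin, hk] at hk3
    exact Pool.Agent.H49M.R3_binom_pow (by omega) hk3.symm

/-- There is one block. -/
theorem one_block3 (part : ∀ b (k : ℕ) (c : Ω → Fin k) (A : Fin k → ℕ), 2 ≤ k →
      H76Y.PartN D j (bar b = b) (e b) (e (bar b)) (F b) q R c A → (e b).rank ≠ ∏ x, A x) (b : Fin m)
    {a : Fin (e b).rank → Ω} (ha : Function.Injective a)
    (hroot : ∀ y : Ω, (F b).eval₂ j y = 0 ↔ ∃ k, y = a k) : IsBlock (1 : Module.End ℚ (YS a)) := by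
  obtain ⟨hn, hev⟩ := C.rank_even b
  obtain ⟨-, ha0, -, -⟩ := C.w9_prod b ha hroot
  have hsep : ∀ k l, k ≠ l → ∃ g ∈ YS a, g k ≠ g l :=
    YS_sep ha0 fun k l n hn h => ha (C.tor b ((hroot _).2 ⟨k, rfl⟩) ((hroot _).2 ⟨l, rfl⟩) hn h)
  have hs : ∀ g ∈ YS a, ∑ k, g k = 0 := fun g hg => hg.1
  obtain ⟨FF, hFF, horth, hsum, hperm, hone⟩ := H76Y.exists_blocksN hn hs (bar b = b)
  have : Nonempty (Fin (e b).rank) := ⟨⟨0, hn⟩⟩
  refine hone ?_
  rcases Nat.lt_or_ge FF.card 2 with h5 | h5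
  · interval_cases h6 : FF.card
    · exfalso
      have hcard : (e b).rank = 1 := by
        have h7 := prod_nz hs hsep (fun P hP => (hFF P hP).1) horth hsum
        rw [Finset.card_eq_zero.1 h6, Finset.prod_empty, Fintype.card_fin] at h7
        exact h7
      rw [hcard] at hev
      exact absurd hev (by decide)
    · rfl
  · exfalso
    obtain ⟨c, A, h7, h8⟩ := C.partd b ha hroot hn hFF horth hsum hperm (by omega)
    exact part b FF.card c A h5 h7 h8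

/-- **The component theorem** of the third version with one class of cocharacters.  `alt` is the
condition on the binomial coefficients or its consequence. -/
theorem compG3 (part : ∀ b (k : ℕ) (c : Ω → Fin k) (A : Fin k → ℕ), 2 ≤ k →
      H76Y.PartN D j (bar b = b) (e b) (e (bar b)) (F b) q R c A → (e b).rank ≠ ∏ x, A x)
    (two : ∀ b (k : ℕ), 4 ≤ k → (e b).rank = 2 ^ k →
      (bar b = b → Gen1 ρ ∧ ¬ (5 ≤ k ∧ (k % 4 = 1 ∨ k % 4 = 2))) ∧ (bar b ≠ b → Odd k))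
    (alt : ∀ b, bar b = b → (∃ k : ℕ, 3 ≤ k ∧ Odd k ∧ (e b).rank = k.centralBinom) → ∀ a : Fin (e b).rank → Ω,
      Function.Injective a → (∀ y : Ω, (F b).eval₂ j y = 0 ↔ ∃ k, y = a k) → IsBlock (1 : Module.End ℚ (YS a)) →
      (∀ k : ℕ, 4 ≤ k → (e b).rank ≠ 2 ^ k) →
      ∀ (K : Type) [Field K] [CharZero K] [IsAlgClosed K]
        (L : Submodule K (Module.End K (Fin (e b).rank → K))) (J : Matrix (Fin (e b).rank) (Fin (e b).rank) K),
        TS L J → Yo L = YS a → ∀ X, adjE J X = -X → X ∈ L) (b : Fin m) :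
    ∃ a : Fin (e b).rank → Ω, Function.Injective a ∧
      (∀ y : Ω, (F b).eval₂ j y = 0 ↔ ∃ k, y = a k) ∧
      ∀ (K : Type) [Field K] [CharZero K] [IsAlgClosed K]
        (L : Submodule K (Module.End K (Fin (e b).rank → K))), H76Y.TM L → Yo L = YS a →
        (bar b = b → ∀ J : Matrix (Fin (e b).rank) (Fin (e b).rank) K, Jᵀ = -J → IsUnit J.det →
          (∀ X ∈ L, adjE J X = -X) → ∀ X, adjE J X = -X → X ∈ L) ∧
        (bar b ≠ b → H76Y.NsL L → ∃ N ∈ L, N * N = 0 ∧ finrank K (LinearMap.range N) = 1) := by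
  obtain ⟨a, ha, hroot⟩ := C.enum b
  obtain ⟨hn, hev⟩ := C.rank_even b
  have hB := one_block3 C part b ha hroot
  have : Nonempty (Fin (e b).rank) := ⟨⟨0, hn⟩⟩
  refine ⟨a, ha, hroot, fun K _ _ _ L hT hY => ⟨fun hb J hJ hJd hsk X hX => ?_, fun hb hns => ?_⟩⟩
  · have hTS : TS L J := ⟨⟨hT.cmp.lie, hT.cmp.irr, hJ, hJd, hsk, hT.cmp.gen⟩, hT.diag, hT.sep⟩
    by_cases htwo : ∃ k : ℕ, 4 ≤ k ∧ (e b).rank = 2 ^ k
    · obtain ⟨k, hk4, hk⟩ := htwo
      obtain ⟨hg, hk'⟩ := (two b k hk4 hk).1 hb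
      obtain ⟨bar', hbb, hbne, hodd, hsk'⟩ := odd_two3 C hg b hb ha hroot hk hk'
      exact full_odd hTS hY hbb hbne hodd hsk' hX
    have htwo' : ∀ k : ℕ, 4 ≤ k → (e b).rank ≠ 2 ^ k := fun k hk h => htwo ⟨k, hk, h⟩
    by_cases hbin : ∃ k : ℕ, 3 ≤ k ∧ Odd k ∧ (e b).rank = k.centralBinom
    · exact alt b hb hbin a ha hroot hB htwo' K L J hTS hY X hX
    · refine full_of_one hTS hY hB (fun k hk => ?_) (fun k hk hk2 h => ?_) hX
      · rw [Fintype.card_fin]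
        exact htwo' k hk
      · rw [Fintype.card_fin] at h
        exact hbin ⟨k, hk, hk2, h⟩
  · refine H76Y.one_ns hT hns hY hB fun k hk hk2 h => ?_
    rw [Fintype.card_fin] at h
    exact (Nat.not_even_iff_odd.2 ((two b k hk h).2 hb)) hk2

end

end Pool.Agent.H45Q
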