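import Pool.Agent.Lib.H45Q.F3b
import Pool.Agent.Lib.H45Q.F3d
import Pool.Agent.Lib.H45Q.S5
import Pool.Agent.Lib.H86L.L5
import Pool.Agent.Lib.H76Y.AS4

/-!
# F3c: the final theorem over a number field, third version
-/

set_option autoImplicit false
set_option linter.unusedSectionVars false
namespace Pool.Agent.H45Q
open Module Matrix Polynomial Pool.Agent.H53Toric NumberField ST32
open Pool.Agent.H76Q
open Pool.Agent.H76P (properProj EigOn)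
open Pool.Agent.H76U (IsSplitting)
open Pool.Agent.H76RM (spanK similD)

theorem finalF3 {ι : Type} [Fintype ι] [DecidableEq ι] {ψ : Matrix ι ι ℚ} (hψ : ψᵀ = -ψ)
    (hψ0 : ψ.det ≠ 0) (D : Subalgebra ℚ (Matrix ι ι ℚ)) {M : Type} [Field M] [NumberField M]
    {m : ℕ} (bar : Fin m → Fin m) (e : Fin m → Matrix ι ι M) (hspl : IsSplitting D ψ bar e)
    (hpos : ∀ d ∈ D, d ≠ 0 → 0 < (d * (ψ⁻¹ * dᵀ * ψ)).trace)
    {F : Type} [Field F] [NumberField F] {Ω : Type} [Field Ω] [CharZero Ω] [Algebra F Ω] [IsAlgClosure F Ω]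
    (j : M →+* Ω)
    (ρ : ∀ (l : ℕ) [Fact l.Prime], (Ω ≃ₐ[F] Ω) →* Matrix.GeneralLinearGroup ι ℚ_[l])
    (cont : ∀ (l : ℕ) [Fact l.Prime], Continuous fun g => (ρ l g : Matrix ι ι ℚ_[l]))
    (lin : ∀ (l : ℕ) [Fact l.Prime], ∀ g : Ω ≃ₐ[F] Ω, ∀ d ∈ D,
      (ρ l g).1 * d.map (algebraMap ℚ ℚ_[l]) = d.map (algebraMap ℚ ℚ_[l]) * (ρ l g).1)
    (sim : ∀ (l : ℕ) [Fact l.Prime], ∀ g : Ω ≃ₐ[F] Ω, ∃ c : ℚ_[l],
      (ρ l g).1ᵀ * ψ.map (algebraMap ℚ ℚ_[l]) * (ρ l g).1 = c • ψ.map (algebraMap ℚ ℚ_[l]))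
    (semis : ∀ (l : ℕ) [Fact l.Prime], ∀ H : Subgroup (Ω ≃ₐ[F] Ω), H.FiniteIndex →
      ∀ W : Submodule (AlgebraicClosure ℚ_[l]) (ι → AlgebraicClosure ℚ_[l]),
      (∀ s ∈ img (AlgebraicClosure ℚ_[l]) (ρ l) H, ∀ w ∈ W, s *ᵥ w ∈ W) →
      ∃ W' : Submodule (AlgebraicClosure ℚ_[l]) (ι → AlgebraicClosure ℚ_[l]),
        (∀ s ∈ img (AlgebraicClosure ℚ_[l]) (ρ l) H, ∀ w ∈ W', s *ᵥ w ∈ W') ∧ IsCompl W W')
    (commt : ∀ (l : ℕ) [Fact l.Prime], ∀ H : Subgroup (Ω ≃ₐ[F] Ω), H.FiniteIndex →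
      ∀ y : Matrix ι ι (AlgebraicClosure ℚ_[l]),
      (∀ s ∈ img (AlgebraicClosure ℚ_[l]) (ρ l) H, y * s = s * y) →
        y ∈ spanK (AlgebraicClosure ℚ_[l]) D)
    (gen : ∀ (l : ℕ) [Fact l.Prime], ∀ g : Ω ≃ₐ[F] Ω,
      (ρ l g).1.map (algebraMap ℚ_[l] (AlgebraicClosure ℚ_[l])) ∈
        tgen (AlgebraicClosure ℚ_[l]) (ρ l))
    (bal : ∀ (l : ℕ) [Fact l.Prime], ∀ h ∈ properProj (AlgebraicClosure ℚ_[l]) (ρ l),
      ∀ (i : M →+* AlgebraicClosure ℚ_[l]) (b : Fin m), bar b ≠ b →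
        2 * (h * (e b).map i).rank = (e b).rank)
    -- the places of bad reduction
    (S : Finset (CFT.Pr F))
    (unr : ∀ (l : ℕ) [Fact l.Prime], ∀ v ∉ S, (l : 𝓞 F) ∉ v.asIdeal →
      ∀ P : Ideal (𝓞 Ω), Above v P → ∀ g : Ω ≃ₐ[F] Ω, Inert P g → ρ l g = 1)
    -- the place `w`
    (p : ℕ) [Fact p.Prime] (w : CFT.Pr F) (hwS : w ∉ S)
    (hwp : Ideal.absNorm w.asIdeal = p)
    (π : 𝓞 F) (hwπ : w.asIdeal = Ideal.span {π}) (hpos' : ∀ τ : F →+* ℝ, 0 < τ π)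
    (hpe : ∀ b, ¬ p ∣ (e b).rank)
    (hcong : ∀ b, ∀ v ∈ S, π - 1 ∈ Ideal.span {((e b).rank : 𝓞 F) ^ 2} * v.asIdeal)
    (hdF : ¬ (p : ℤ) ∣ NumberField.discr F) (hdM : ¬ (p : ℤ) ∣ NumberField.discr M)
    (σ : Ω ≃ₐ[F] Ω) (hσ : IsFrv w σ)
    (f : ℤ[X]) (hf : f.Monic) (weil : ∀ z : ℂ, aeval z f = 0 → ‖z‖ ^ 2 = p)
    (χ : Fin m → M[X])
    (mult : ∀ (l : ℕ) [Fact l.Prime], l ≠ p →
      (ρ l σ).1ᵀ * ψ.map (algebraMap ℚ ℚ_[l]) * (ρ l σ).1 = (p : ℚ_[l]) • ψ.map (algebraMap ℚ ℚ_[l]))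
    (char : ∀ (l : ℕ) [Fact l.Prime], l ≠ p →
      (ρ l σ).1.charpoly = f.map (algebraMap ℤ ℚ_[l]))
    (frob : ∀ (l : ℕ) [Fact l.Prime], l ≠ p →
      FrobT (AlgebraicClosure ℚ_[l]) (ρ l) e χ
        ((ρ l σ).1.map (algebraMap ℚ_[l] (AlgebraicClosure ℚ_[l]))))
    (neat : ∀ b, ∀ a a' : Ω, (χ b).eval₂ j a = 0 → (χ b).eval₂ j a' = 0 →
      ∀ n : ℕ, n ≠ 0 → a ^ n = a' ^ n → a = a')
    -- the representation at `p`
    (v : AlgebraicClosure ℚ_[p] → ℚ) (hv : IsPVal p v)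
    (φ μ ν : Matrix ι ι (AlgebraicClosure ℚ_[p]))
    (frobp : FrobT (AlgebraicClosure ℚ_[p]) (ρ p) e χ φ)
    (multp : φᵀ * ψ.map (algebraMap ℚ (AlgebraicClosure ℚ_[p])) * φ =
      (p : AlgebraicClosure ℚ_[p]) • ψ.map (algebraMap ℚ (AlgebraicClosure ℚ_[p])))
    (crys : CrysF3 p (ρ p) e σ φ μ ν v)
    -- the conditions on `F` and on the dimensions
    (part : ∀ b (k : ℕ) (c : (F →+* Ω) → Fin k) (A : Fin k → ℕ), 2 ≤ k →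
      H76Y.MumN D j (bar b = b) (e b) (e (bar b)) F c A → (e b).rank ≠ ∏ x, A x)
    (two : ∀ b (k : ℕ), 4 ≤ k → (e b).rank = 2 ^ k →
      (bar b = b → Gen1 ρ ∧ ¬ (5 ≤ k ∧ (k % 4 = 1 ∨ k % 4 = 2))) ∧ (bar b ≠ b → Odd k))
    (binom : ∀ b (k : ℕ), bar b = b → 3 ≤ k → Odd k → (e b).rank = k.centralBinom →
      Nonempty (F →+* ℝ) ∧ HTRat F ρ σ) :
    ∀ (l : ℕ) [Fact l.Prime] (i : M →+* AlgebraicClosure ℚ_[l]), ∀ H : Subgroup (Ω ≃ₐ[F] Ω), H.FiniteIndex →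
      monodromy (AlgebraicClosure ℚ_[l]) (ρ l) H =
        H76Y.balGrp (AlgebraicClosure ℚ_[l]) ψ D (fun b => (e b).map i) := by
  classical
  have hcl : IsAlgClosed Ω := IsAlgClosure.isAlgClosed F
  have halgF : Algebra.IsAlgebraic F Ω := IsAlgClosure.isAlgebraic
  have halg : Algebra.IsAlgebraic ℚ Ω := Algebra.IsAlgebraic.trans ℚ F Ω
  have hfin : Finite (F →+* Ω) := inferInstance
  have : Fintype (F →+* Ω) := Fintype.ofFinite _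
  have bal' : ∀ (l : ℕ) [Fact l.Prime], ∀ h ∈ properProj (AlgebraicClosure ℚ_[l]) (ρ l),
      ∀ (i : M →+* AlgebraicClosure ℚ_[l]) (b : Fin m), 2 * (h * (e b).map i).rank = (e b).rank := by
    intro l _ h hh i b
    by_cases hb : bar b = b
    · exact bal_of hψ hψ0 hspl (ρ l) (lin l) (sim l) hh i hb
    · exact bal l h hh i b hb
  obtain ⟨R, hR⟩ : ∃ R : Finset Ω, ∀ x, x ∈ R ↔ ∃ τ : F →+* Ω, τ (π : F) = x :=
    ⟨Finset.univ.image (fun τ : F →+* Ω => τ (π : F)), fun x => by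
      rw [Finset.mem_image]
      simp⟩
  obtain ⟨hroot, C⟩ := core3_of hψ hψ0 D bar e hspl j ρ cont lin sim semis commt gen bal' S unr p w hwS hwp
    π hwπ hpos' hpe hcong hdF hdM σ hσ f hf weil χ mult char frob neat v hv φ μ ν frobp multp crys R hR
  have comp := compG3 C (fun b k c A hk hPD => part b k _ A hk (mum_of_part π weil (hroot b) hR hPD)) two
    (fun b hb ⟨k, hk3, hkodd, hk⟩ a ha hroota hB _ K _ _ _ L J hTS hY X hX => by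
      obtain ⟨⟨τ₀⟩, N', hN', ht⟩ := binom b k hb hk3 hkodd hk
      obtain ⟨c, T₀, hr⟩ := H86L.real_of3 (F := F) j τ₀ hψ hψ0 hpos hspl ρ σ p χ f weil hroot N' hN' ht
      exact H86L.core3_binom C hr b hb ha hroota hB ⟨k, hk3, hk⟩ hTS hY hX)
  intro l _ i H hH
  exact C.final_of comp l i H hH

end Pool.Agent.H45Q
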