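import Pool.Agent.Lib.H45Q.F3b
import Pool.Agent.Lib.H45Q.F3d
import Pool.Agent.Lib.H76Z.Z1

/-!
# F4b: the conditions of the fourth version over a number field
-/

set_option autoImplicit false
set_option linter.unusedSectionVars false
namespace Pool.Agent.H45Q
open Module Matrix Polynomial Pool.Agent.H53Toric NumberField ST32
open Pool.Agent.H76Q
open Pool.Agent.H76P (properProj EigOn)
open Pool.Agent.H76U (IsSplitting)
open Pool.Agent.H76RM (spanK similD)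

/-- The balance for a component with a form. -/
theorem bal4_of {ι : Type*} [Fintype ι] [DecidableEq ι] {L K : Type*} [Field L] [Field K] [CharZero L]
    [CharZero K] [Algebra L K] {ψ : Matrix ι ι ℚ} (hψ : ψᵀ = -ψ) (hψ0 : ψ.det ≠ 0)
    {D : Subalgebra ℚ (Matrix ι ι ℚ)} {M : Type*} [Field M] [CharZero M] {m : ℕ} {cl : Fin m → H76Z.Cl}
    {bar : Fin m → Fin m} {e : Fin m → Matrix ι ι M} {u : Matrix ι ι M} (hspl : H76Z.Splits D ψ cl bar e u)
    {G : Type*} [Group G] (ρ : G →* Matrix.GeneralLinearGroup ι L)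
    (lin : ∀ g : G, ∀ d ∈ D, (ρ g).1 * d.map (algebraMap ℚ L) = d.map (algebraMap ℚ L) * (ρ g).1)
    (sim : ∀ g : G, ∃ c : L,
      (ρ g).1ᵀ * ψ.map (algebraMap ℚ L) * (ρ g).1 = c • ψ.map (algebraMap ℚ L))
    {h : Matrix ι ι K} (hh : h ∈ properProj K ρ) (i : M →+* K) {b : Fin m} (hb : cl b ≠ .n) :
    2 * (h * (e b).map i).rank = (e b).rank := by
  obtain ⟨hJ, hdet⟩ := gram_basic hψ hψ0 K
  obtain ⟨J, hJdef⟩ : ∃ J : Matrix ι ι K, J = ψ.map (algebraMap ℚ K) := ⟨_, rfl⟩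
  rw [← hJdef] at hJ hdet
  have hspl' := hspl.map i
  have hlinK : ∀ σ : G, ∀ d ∈ D, (ρ σ).1.map (algebraMap L K) * d.map (algebraMap ℚ K) =
      d.map (algebraMap ℚ K) * (ρ σ).1.map (algebraMap L K) := by
    intro σ d hd
    have h1 := congrArg (fun m : Matrix ι ι L => m.map (algebraMap L K)) (lin σ d hd)
    have h2 : (d.map (algebraMap ℚ L)).map (algebraMap L K) = d.map (algebraMap ℚ K) := by
      ext i j
      simp
    simp only [Matrix.map_mul] at h1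
    rw [h2] at h1
    exact h1
  have hsimI : ∀ s ∈ img K ρ ⊤, ∃ c : K, sᵀ * J * s = c • J := by
    rintro _ ⟨y, -, rfl⟩
    obtain ⟨c, hc⟩ := sim y
    rw [hJdef]
    exact ⟨_, sim_map hc⟩
  have hb1 : (1 : Matrix ι ι K) ≠ 0 := by
    intro h0
    apply hh.2.1
    rw [← mul_one h, h0, mul_zero]
  obtain ⟨k, l, hkl⟩ : ∃ k l, J k l ≠ 0 := by
    by_contra hcon
    push Not at hcon
    have h3 : J = 0 := by
      ext i j
      exact hcon i j
    apply hb1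
    rw [← Matrix.nonsing_inv_mul _ hdet, h3, Matrix.mul_zero]
  have hs := (proj_sim' hdet hkl hsimI hh.1 hh.2.1 hh.2.2).2
  have hcom : ∀ z ∈ spanK K D, h * z = z * h := by
    intro z hz
    have h0 : ∀ s ∈ img K ρ ⊤, s * z = z * s := by
      rintro _ ⟨y, -, rfl⟩
      refine Submodule.span_induction (p := fun z _ => (ρ y).1.map (algebraMap L K) * z =
        z * (ρ y).1.map (algebraMap L K)) ?_ ?_ ?_ ?_ hz
      · rintro _ ⟨d, hd, rfl⟩
        exact hlinK y d hd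
      · rw [Matrix.mul_zero, Matrix.zero_mul]
      · intro y y' _ _ h7 h8
        rw [Matrix.mul_add, Matrix.add_mul, h7, h8]
      · intro c y _ h7
        rw [Matrix.mul_smul, Matrix.smul_mul, h7]
    have h1 := H76RM.zar_commute h0 (hh.1.2 2 two_ne_zero)
    rw [add_mul, mul_add, one_mul, mul_one, smul_mul_assoc, mul_smul_comm] at h1
    have h3 := add_left_cancel h1
    have h4 : ((2 : K) - 1) = 1 := by norm_num
    rwa [h4, one_smul, one_smul] at h3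
  have hu : IsUnit (J * u.map i).det := by
    rw [Matrix.det_mul]
    exact hdet.mul hspl'.unit
  have hadj : ((e b).map i)ᵀ * (J * u.map i) = J * u.map i * (e b).map i := by
    have h1 := hspl'.adj b
    rw [(hspl.self b).2 hb, ← hJdef] at h1
    exact h1
  have hs2 : hᵀ * (J * u.map i) + J * u.map i * h = J * u.map i := by
    rw [Matrix.mul_assoc J, ← hcom _ hspl'.umem, ← Matrix.mul_assoc, ← Matrix.mul_assoc, ← Matrix.add_mul, hs]
  have h1 := H76Y.bal_self hu (hspl'.idem b) hadj hh.1.1 (hcom _ (hspl'.mem b)) hs2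
  rw [h1, H76U.rank_idem_map (hspl.idem b) i]

theorem core4_of {ι : Type} [Fintype ι] [DecidableEq ι] {ψ : Matrix ι ι ℚ} (hψ : ψᵀ = -ψ)
    (hψ0 : ψ.det ≠ 0) (D : Subalgebra ℚ (Matrix ι ι ℚ)) {M : Type} [Field M] [NumberField M]
    {m : ℕ} (cl : Fin m → H76Z.Cl) (bar : Fin m → Fin m) (e : Fin m → Matrix ι ι M) (u : Matrix ι ι M)
    (hspl : H76Z.Splits D ψ cl bar e u)
    {F : Type} [Field F] [NumberField F] {Ω : Type} [Field Ω] [CharZero Ω] [Algebra F Ω] [IsAlgClosure F Ω]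
    [IsAlgClosed Ω] [Algebra.IsAlgebraic ℚ Ω]
    (j : M →+* Ω)
    (ρ : ∀ (l : ℕ) [Fact l.Prime], (Ω ≃ₐ[F] Ω) →* Matrix.GeneralLinearGroup ι ℚ_[l])
    (cont : ∀ (l : ℕ) [Fact l.Prime], Continuous fun g => (ρ l g : Matrix ι ι ℚ_[l]))
    (lin : ∀ (l : ℕ) [Fact l.Prime], ∀ g : Ω ≃ₐ[F] Ω, ∀ d ∈ D,
      (ρ l g).1 * d.map (algebraMap ℚ ℚ_[l]) = d.map (algebraMap ℚ ℚ_[l]) * (ρ l g).1)
    (sim : ∀ (l : ℕ) [Fact l.Prime], ∀ g : Ω ≃ₐ[F] Ω, ∃ c : ℚ_[l],
      (ρ l g).1ᵀ * ψ.map (algebraMap ℚ ℚ_[l]) * (ρ l g).1 = c • ψ.map (algebraMap ℚ ℚ_[l]))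
    (semis : ∀ (l : ℕ) [Fact l.Prime], ∀ H : Subgroup (Ω ≃ₐ[F] Ω), H.FiniteIndex →
      ∀ W : Submodule (AlgebraicClosure ℚ_[l]) (ι → AlgebraicClosure ℚ_[l]),
      (∀ s ∈ img (AlgebraicClosure ℚ_[l]) (ρ l) H, ∀ w ∈ W, s *ᵥ w ∈ W) →
      ∃ W' : Submodule (AlgebraicClosure ℚ_[l]) (ι → AlgebraicClosure ℚ_[l]),
        (∀ s ∈ img (AlgebraicClosure ℚ_[l]) (ρ l) H, ∀ w ∈ W', s *ᵥ w ∈ W') ∧ IsCompl W W')
    (commt : ∀ (l : ℕ) [Fact l.Prime], ∀ H : Subgroup (Ω ≃ₐ[F] Ω), H.FiniteIndex →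
      ∀ y : Matrix ι ι (AlgebraicClosure ℚ_[l]),
      (∀ s ∈ img (AlgebraicClosure ℚ_[l]) (ρ l) H, y * s = s * y) →
        y ∈ spanK (AlgebraicClosure ℚ_[l]) D)
    (gen : ∀ (l : ℕ) [Fact l.Prime], ∀ g : Ω ≃ₐ[F] Ω,
      (ρ l g).1.map (algebraMap ℚ_[l] (AlgebraicClosure ℚ_[l])) ∈
        tgen (AlgebraicClosure ℚ_[l]) (ρ l))
    (bal : ∀ (l : ℕ) [Fact l.Prime], ∀ h ∈ properProj (AlgebraicClosure ℚ_[l]) (ρ l),
      ∀ (i : M →+* AlgebraicClosure ℚ_[l]) (b : Fin m), cl b = .n →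
        2 * (h * (e b).map i).rank = (e b).rank)
    -- the places of bad reduction
    (S : Finset (CFT.Pr F))
    (unr : ∀ (l : ℕ) [Fact l.Prime], ∀ v ∉ S, (l : 𝓞 F) ∉ v.asIdeal →
      ∀ P : Ideal (𝓞 Ω), Above v P → ∀ g : Ω ≃ₐ[F] Ω, Inert P g → ρ l g = 1)
    -- the place `w`
    (p : ℕ) [Fact p.Prime] (w : CFT.Pr F) (hwS : w ∉ S)
    (hwp : Ideal.absNorm w.asIdeal = p)
    (π : 𝓞 F) (hwπ : w.asIdeal = Ideal.span {π}) (hpos : ∀ τ : F →+* ℝ, 0 < τ π)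
    (hpe : ∀ b, ¬ p ∣ (e b).rank)
    (hcong : ∀ b, ∀ v ∈ S, π - 1 ∈ Ideal.span {((e b).rank : 𝓞 F) ^ 2} * v.asIdeal)
    (hdF : ¬ (p : ℤ) ∣ NumberField.discr F) (hdM : ¬ (p : ℤ) ∣ NumberField.discr M)
    (σ : Ω ≃ₐ[F] Ω) (hσ : IsFrv w σ)
    (f : ℤ[X]) (hf : f.Monic) (weil : ∀ z : ℂ, aeval z f = 0 → ‖z‖ ^ 2 = p)
    (χ : Fin m → M[X])
    (mult : ∀ (l : ℕ) [Fact l.Prime], l ≠ p →
      (ρ l σ).1ᵀ * ψ.map (algebraMap ℚ ℚ_[l]) * (ρ l σ).1 = (p : ℚ_[l]) • ψ.map (algebraMap ℚ ℚ_[l]))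
    (char : ∀ (l : ℕ) [Fact l.Prime], l ≠ p →
      (ρ l σ).1.charpoly = f.map (algebraMap ℤ ℚ_[l]))
    (frob : ∀ (l : ℕ) [Fact l.Prime], l ≠ p →
      FrobT (AlgebraicClosure ℚ_[l]) (ρ l) e χ
        ((ρ l σ).1.map (algebraMap ℚ_[l] (AlgebraicClosure ℚ_[l]))))
    (neat : ∀ b, ∀ a a' : Ω, (χ b).eval₂ j a = 0 → (χ b).eval₂ j a' = 0 →
      ∀ n : ℕ, n ≠ 0 → a ^ n = a' ^ n → a = a')
    -- the representation at `p`
    (v : AlgebraicClosure ℚ_[p] → ℚ) (hv : IsPVal p v)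
    (φ μ ν : Matrix ι ι (AlgebraicClosure ℚ_[p]))
    (frobp : FrobT (AlgebraicClosure ℚ_[p]) (ρ p) e χ φ)
    (multp : φᵀ * ψ.map (algebraMap ℚ (AlgebraicClosure ℚ_[p])) * φ =
      (p : AlgebraicClosure ℚ_[p]) • ψ.map (algebraMap ℚ (AlgebraicClosure ℚ_[p])))
    (crys : CrysF3 p (ρ p) e σ φ μ ν v)
    (R : Finset Ω) (hR : ∀ x, x ∈ R ↔ ∃ τ : F →+* Ω, τ (π : F) = x) :
    (∀ b, ∀ a : Ω, (χ b).eval₂ j a = 0 → aeval a f = 0) ∧
    H76Z.Core3 ψ D cl bar e u ρ p σ (p : ℚ) χ φ μ ν v (inertia p v) j R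
      ({l | l ∣ (∏ b, (e b).rank) * p} : Set ℕ) := by
  classical
  have hp : p.Prime := Fact.out
  have hdv : CFT.dv (π : F) = Finsupp.single w 1 := H45K.dv_gen hwπ
  have hvval : IsVal v := H45K.pval_isVal hv
  have hvp : v (p : AlgebraicClosure ℚ_[p]) = 1 := H45K.pval_p hv
  have hvd : ∀ x : AlgebraicClosure ℚ_[p], x ≠ 0 → (∀ δ ∈ inertia p v, δ x = x) → ∃ n : ℤ, v x = n := H45K.pval_dval hv
  have hval : H45K.IsV v := ⟨hvval.mul, hvval.add⟩
  have crysP : H76Y.CrysN (AlgebraicClosure ℚ_[p]) (ρ p) e σ φ μ ν v (inertia p v) :=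
    { val := hvval
      mu := crys.mu
      muphi := crys.muphi
      phigen := crys.phigen
      nu := crys.nu
      newton := crys.newton
      unr := crys.unr
      int := crys.int
      eint := crys.eint
      dfix := fun δ hδ => hδ.1
      dphi := crys.dphi
      dM := fun δ hδ i c => H45K.rfix hval hp hvp M hdM δ hδ.2 i c
      dideal := crys.dideal
      dval := hvd }
  have hRfix : ∀ i : Ω →+* AlgebraicClosure ℚ_[p], ∀ r ∈ R, ∀ δ : AlgebraicClosure ℚ_[p] ≃+* AlgebraicClosure ℚ_[p],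
      δ ∈ inertia p v → δ (i r) = i r := by
    intro i r hr δ hδ
    obtain ⟨τ, rfl⟩ := (hR r).1 hr
    exact H45K.rfix hval hp hvp F hdF δ hδ.2 (i.comp τ) (π : F)
  -- roots of F_b are roots of f
  have hroot : ∀ b, ∀ a : Ω, (χ b).eval₂ j a = 0 → aeval a f = 0 := by
    intro b a ha
    obtain ⟨l, hl, hlp⟩ : ∃ l : ℕ, l.Prime ∧ l ≠ p := by
      by_cases h : p = 2
      · exact ⟨3, Nat.prime_three, by rw [h]; norm_num⟩
      · exact ⟨2, Nat.prime_two, fun h' => h h'.symm⟩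
    have hlf : Fact l.Prime := ⟨hl⟩
    let i : Ω →ₐ[ℚ] AlgebraicClosure ℚ_[l] := IsAlgClosed.lift
    have h1 := (frob l hlp).eig (i.toRingHom.comp j) b (i.toRingHom a)
    rw [← Polynomial.hom_eval₂, ha, map_zero] at h1
    obtain ⟨z, hz, -, hz2⟩ := h1.2 rfl
    have h2 := H45K.root_of_eig hz hz2
    rw [Matrix.charpoly_map, char l hlp, Polynomial.map_map, Polynomial.eval_map] at h2
    have h3 : (algebraMap ℚ_[l] (AlgebraicClosure ℚ_[l])).comp (algebraMap ℤ ℚ_[l]) = i.toRingHom.comp (algebraMap ℤ Ω) :=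
      RingHom.ext_int _ _
    rw [h3, ← Polynomial.hom_eval₂] at h2
    rw [aeval_def]
    exact (map_eq_zero i.toRingHom).1 h2
  refine ⟨hroot, ?_⟩
  have hpQ : (∀ n : ℕ, n ≠ 0 → (p : ℚ) ^ n ≠ 1) := by
    intro n hn
    have h1 : (1 : ℚ) < p := by exact_mod_cast hp.one_lt
    exact (one_lt_pow₀ h1 hn).ne'
  have hr0 : ∀ b, (e b).rank ≠ 0 := fun b h => hpe b (h ▸ dvd_zero p)
  have hNf : ({l | l ∣ (∏ b, (e b).rank) * p} : Set ℕ).Finite := by
    refine (Finset.finite_toSet (Nat.divisors ((∏ b, (e b).rank) * p))).subset fun l hl => ?_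
    rw [Finset.mem_coe, Nat.mem_divisors]
    exact ⟨hl, Nat.mul_ne_zero (Finset.prod_ne_zero_iff.2 fun b _ => hr0 b) hp.ne_zero⟩
  exact
    { hψ := hψ
      hψ0 := hψ0
      hspl := hspl
      lin := lin
      sim := sim
      semis := semis
      commt := commt
      gen := gen
      bal := fun l _ h hh i b => by
        by_cases hb : cl b = .n
        · exact bal l h hh i b hb
        · exact bal4_of hψ hψ0 hspl (ρ l) (lin l) (sim l) hh i hb
      hq := hpQ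
      mult := fun l _ hl => by
        rw [map_natCast]
        exact mult l hl
      frob := frob
      frobp := frobp
      multp := by
        rw [map_natCast]
        exact multp
      crys := crysP
      vq := by
        rw [map_natCast]
        exact hvp
      hN := dvd_mul_left p _
      arith := fun b => arithN (hr0 b) ρ cont S unr p w hwS hwp π hwπ hpos (hcong b) σ hσ R hR _ hNf
        (fun l hl => (hl.trans (Finset.dvd_prod_of_mem (fun b => (e b).rank) (Finset.mem_univ b))).mul_right p) (dvd_mul_left p _)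
      munr := fun b δ hδ z hz => H45P.mu_fix hval hp hvp (hpe b) δ hδ.2 z hz
      Rstab := fun s r hr => H45K.R_stab hR s hr
      Rval := fun i => H45K.rval hval hvp hdv hp hwp hR i fun r hr => by
        refine hvd (i r) ?_ (fun δ hδ => hRfix i r hr δ hδ)
        obtain ⟨τ, rfl⟩ := (hR r).1 hr
        rw [Ne, map_eq_zero, map_eq_zero]
        exact H45K.pi_ne hdv
      Rfix := hRfix
      Rtrans := fun r hr r' hr' => by
        obtain ⟨τ, rfl⟩ := (hR r).1 hr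
        obtain ⟨τ', rfl⟩ := (hR r').1 hr'
        obtain ⟨s, hs⟩ := H45K.exists_aut τ τ'
        exact ⟨s, hs (π : F)⟩
      dec := fun s T => dec_N _ hNf s T
      gal := fun b a a' ha ha' hne => by
        refine H45K.gal hval hp hvp f hf weil (hroot b a ha) (hroot b a' ha') fun n hn h1 => ?_
        rw [div_pow] at h1
        by_cases h0 : a' = 0
        · rw [h0, zero_pow hn, div_zero] at h1
          exact zero_ne_one h1
        · exact hne (neat b a a' ha ha' n hn (by rwa [div_eq_one_iff_eq (pow_ne_zero _ h0)] at h1)) }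

end Pool.Agent.H45Q
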