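import Pool.Agent.Lib.H86K.K11
import Pool.Agent.Lib.H86K.K14
import Pool.Agent.Lib.H45Q.S4
import Pool.Agent.Lib.H76Q.Q7
import Pool.Agent.Lib.H76Q.X12b
import Pool.Agent.Lib.H76Q.Q5
import Pool.Agent.Lib.H45K.K6
import Pool.Agent.Lib.H45K.K7
import Pool.Agent.Lib.H45K.K9
import Pool.Agent.Lib.H45K.K10a
import Pool.Agent.Lib.H45K.K12b
import Pool.Agent.Lib.H45K.K13
import Pool.Agent.Lib.H45K.K14

/-!
# The final theorem over a number field, version 2b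
-/

set_option autoImplicit false
set_option linter.unusedSectionVars false
namespace Pool.Agent.H45Q
open Pool.Agent Pool.Agent.H76Q
open Module Matrix Polynomial Pool.Agent.H53Toric NumberField ST32
open Pool.Agent.H76P (properProj EigOn)
open Pool.Agent.H76U (IsSplitting)
open Pool.Agent.H76RM (spanK similD)

theorem finalF2b {ι : Type} [Fintype ι] [DecidableEq ι] {ψ : Matrix ι ι ℚ} (hψ : ψᵀ = -ψ)
    (hψ0 : ψ.det ≠ 0) (D : Subalgebra ℚ (Matrix ι ι ℚ)) {M : Type} [Field M] [NumberField M]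
    {m : ℕ} (e : Fin m → Matrix ι ι M) (hspl : IsSplitting D ψ id e)
    {F : Type} [Field F] [NumberField F] {Ω : Type} [Field Ω] [CharZero Ω] [Algebra F Ω] [IsAlgClosure F Ω]
    (j : M →+* Ω)
    (ρ : ∀ (l : ℕ) [Fact l.Prime], (Ω ≃ₐ[F] Ω) →* Matrix.GeneralLinearGroup ι ℚ_[l])
    (cont : ∀ (l : ℕ) [Fact l.Prime], Continuous fun g => (ρ l g : Matrix ι ι ℚ_[l]))
    (lin : ∀ (l : ℕ) [Fact l.Prime], ∀ g : Ω ≃ₐ[F] Ω, ∀ d ∈ D,
      (ρ l g).1 * d.map (algebraMap ℚ ℚ_[l]) = d.map (algebraMap ℚ ℚ_[l]) * (ρ l g).1)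
    (sim : ∀ (l : ℕ) [Fact l.Prime], ∀ g : Ω ≃ₐ[F] Ω, ∃ c : ℚ_[l],
      (ρ l g).1ᵀ * ψ.map (algebraMap ℚ ℚ_[l]) * (ρ l g).1 = c • ψ.map (algebraMap ℚ ℚ_[l]))
    (semis : ∀ (l : ℕ) [Fact l.Prime], ∀ H : Subgroup (Ω ≃ₐ[F] Ω), H.FiniteIndex →
      ∀ W : Submodule (AlgebraicClosure ℚ_[l]) (ι → AlgebraicClosure ℚ_[l]),
      (∀ s ∈ img (AlgebraicClosure ℚ_[l]) (ρ l) H, ∀ w ∈ W, s *ᵥ w ∈ W) →
      ∃ W' : Submodule (AlgebraicClosure ℚ_[l]) (ι → AlgebraicClosure ℚ_[l]),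
        (∀ s ∈ img (AlgebraicClosure ℚ_[l]) (ρ l) H, ∀ w ∈ W', s *ᵥ w ∈ W') ∧ IsCompl W W')
    (commt : ∀ (l : ℕ) [Fact l.Prime], ∀ H : Subgroup (Ω ≃ₐ[F] Ω), H.FiniteIndex →
      ∀ y : Matrix ι ι (AlgebraicClosure ℚ_[l]),
      (∀ s ∈ img (AlgebraicClosure ℚ_[l]) (ρ l) H, y * s = s * y) →
        y ∈ spanK (AlgebraicClosure ℚ_[l]) D)
    (gen : ∀ (l : ℕ) [Fact l.Prime], ∀ g : Ω ≃ₐ[F] Ω,
      (ρ l g).1.map (algebraMap ℚ_[l] (AlgebraicClosure ℚ_[l])) ∈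
        tgen (AlgebraicClosure ℚ_[l]) (ρ l))
    -- the places of bad reduction
    (S : Finset (CFT.Pr F))
    (unr : ∀ (l : ℕ) [Fact l.Prime], ∀ v ∉ S, (l : 𝓞 F) ∉ v.asIdeal →
      ∀ P : Ideal (𝓞 Ω), Above v P → ∀ g : Ω ≃ₐ[F] Ω, Inert P g → ρ l g = 1)
    -- the place `w`
    (p : ℕ) [Fact p.Prime] (w : CFT.Pr F) (hwS : w ∉ S)
    (hwp : Ideal.absNorm w.asIdeal = p)
    (π : 𝓞 F) (hwπ : w.asIdeal = Ideal.span {π}) (hpos : ∀ τ : F →+* ℝ, 0 < τ π)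
    (hcong : ∀ v ∈ S, π - 1 ∈ Ideal.span {4} * v.asIdeal)
    (hdF : ¬ (p : ℤ) ∣ NumberField.discr F) (hdM : ¬ (p : ℤ) ∣ NumberField.discr M)
    (σ : Ω ≃ₐ[F] Ω) (hσ : IsFrv w σ)
    (f : ℤ[X]) (hf : f.Monic) (weil : ∀ z : ℂ, aeval z f = 0 → ‖z‖ ^ 2 = p)
    (χ : Fin m → M[X])
    (mult : ∀ (l : ℕ) [Fact l.Prime], l ≠ p →
      (ρ l σ).1ᵀ * ψ.map (algebraMap ℚ ℚ_[l]) * (ρ l σ).1 = (p : ℚ_[l]) • ψ.map (algebraMap ℚ ℚ_[l]))
    (char : ∀ (l : ℕ) [Fact l.Prime], l ≠ p →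
      (ρ l σ).1.charpoly = f.map (algebraMap ℤ ℚ_[l]))
    (frob : ∀ (l : ℕ) [Fact l.Prime], l ≠ p →
      FrobT (AlgebraicClosure ℚ_[l]) (ρ l) e χ
        ((ρ l σ).1.map (algebraMap ℚ_[l] (AlgebraicClosure ℚ_[l]))))
    (neat : ∀ b, ∀ a a' : Ω, (χ b).eval₂ j a = 0 → (χ b).eval₂ j a' = 0 →
      ∀ n : ℕ, n ≠ 0 → a ^ n = a' ^ n → a = a')
    -- the representation at `p`
    (v : AlgebraicClosure ℚ_[p] → ℚ) (hv : IsPVal p v)
    (φ μ ν : Matrix ι ι (AlgebraicClosure ℚ_[p]))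
    (frobp : FrobT (AlgebraicClosure ℚ_[p]) (ρ p) e χ φ)
    (multp : φᵀ * ψ.map (algebraMap ℚ (AlgebraicClosure ℚ_[p])) * φ =
      (p : AlgebraicClosure ℚ_[p]) • ψ.map (algebraMap ℚ (AlgebraicClosure ℚ_[p])))
    (charp : φ.charpoly = f.map (algebraMap ℤ (AlgebraicClosure ℚ_[p])))
    (crys : CrysF p (ρ p) e σ φ μ ν v)
    (cyc : ∃ s : Ω ≃ₐ[F] Ω, ∃ c : ℚ_[p],
      (ρ p s).1ᵀ * ψ.map (algebraMap ℚ ℚ_[p]) * (ρ p s).1 = c • ψ.map (algebraMap ℚ ℚ_[p]) ∧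
        ∀ n : ℕ, n ≠ 0 → c ^ n ≠ 1)
    -- the conditions on `F` and on the dimensions
    (part : ∀ b (k : ℕ) (c : (F →+* Ω) → Fin k) (A : Fin k → ℕ), 2 ≤ k →
      MumD D j (e b) F c A → (e b).rank ≠ ∏ x, A x)
    (two : ∀ b (k : ℕ), 4 ≤ k → (e b).rank = 2 ^ k → Gen1 ρ ∧ ¬ (5 ≤ k ∧ (k % 4 = 1 ∨ k % 4 = 2)))
    (binom : ∀ b (k : ℕ), 3 ≤ k → Odd k → (e b).rank = k.centralBinom →
      Nonempty (F →+* ℝ) ∧ (∀ (τ : M →+* ℂ) (x : M), starRingEnd ℂ (τ x) = τ x) ∧ HTRat F ρ σ) :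
    ∀ (l : ℕ) [Fact l.Prime], ∀ H : Subgroup (Ω ≃ₐ[F] Ω), H.FiniteIndex →
      monodromy (AlgebraicClosure ℚ_[l]) (ρ l) H = similD (AlgebraicClosure ℚ_[l]) ψ D := by
  classical
  have hp : p.Prime := Fact.out
  have hcl : IsAlgClosed Ω := IsAlgClosure.isAlgClosed F
  have halgF : Algebra.IsAlgebraic F Ω := IsAlgClosure.isAlgebraic
  have halg : Algebra.IsAlgebraic ℚ Ω := Algebra.IsAlgebraic.trans ℚ F Ω
  have hdv : CFT.dv (π : F) = Finsupp.single w 1 := H45K.dv_gen hwπ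
  have hvval : IsVal v := H45K.pval_isVal hv
  have hvp : v (p : AlgebraicClosure ℚ_[p]) = 1 := H45K.pval_p hv
  have hvd : ∀ x : AlgebraicClosure ℚ_[p], x ≠ 0 → (∀ δ ∈ inertia p v, δ x = x) → ∃ n : ℤ, v x = n := H45K.pval_dval hv
  have hval : H45K.IsV v := ⟨hvval.mul, hvval.add⟩
  have crysP : CrysP (AlgebraicClosure ℚ_[p]) (ρ p) e σ φ μ ν v (inertia p v) :=
    { val := hvval
      mu := crys.mu
      muphi := crys.muphi
      phigen := crys.phigen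
      nu := crys.nu
      newton := crys.newton
      unr := crys.unr
      int := crys.int
      eint := crys.eint
      dfix := fun δ hδ => hδ.1
      dphi := crys.dphi
      dM := fun δ hδ i c => H45K.rfix hval hp hvp M hdM δ hδ.2 i c
      dideal := crys.dideal
      dval := hvd }
  have hfin : Finite (F →+* Ω) := inferInstance
  have : Fintype (F →+* Ω) := Fintype.ofFinite _
  set R : Finset Ω := Finset.univ.image (fun τ : F →+* Ω => τ (π : F)) with hRdef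
  have hR : ∀ x, x ∈ R ↔ ∃ τ : F →+* Ω, τ (π : F) = x := by
    intro x
    rw [hRdef, Finset.mem_image]
    simp
  have hcard := H45K.card_R hdv hp hwp hR
  have hRfix : ∀ i : Ω →+* AlgebraicClosure ℚ_[p], ∀ r ∈ R, ∀ δ : AlgebraicClosure ℚ_[p] ≃+* AlgebraicClosure ℚ_[p],
      δ ∈ inertia p v → δ (i r) = i r := by
    intro i r hr δ hδ
    obtain ⟨τ, rfl⟩ := (hR r).1 hr
    exact H45K.rfix hval hp hvp F hdF δ hδ.2 (i.comp τ) (π : F)
  have hpΩ : (p : ℚ_[p]) ≠ 0 := by exact_mod_cast hp.ne_zero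
  have hmapQ : ∀ (K : Type) [Field K] [CharZero K] [Algebra ℚ K],
      (f.map (algebraMap ℤ ℚ)).map (algebraMap ℚ K) = f.map (algebraMap ℤ K) := by
    intro K _ _ _
    rw [Polynomial.map_map]
    congr 1
    exact RingHom.ext_int _ _
  -- roots of F_b are roots of f
  have hroot : ∀ b, ∀ a : Ω, (χ b).eval₂ j a = 0 → aeval a f = 0 := by
    intro b a ha
    obtain ⟨l, hl, hlp⟩ : ∃ l : ℕ, l.Prime ∧ l ≠ p := by
      by_cases h : p = 2
      · exact ⟨3, Nat.prime_three, by rw [h]; norm_num⟩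
      · exact ⟨2, Nat.prime_two, fun h' => h h'.symm⟩
    have hlf : Fact l.Prime := ⟨hl⟩
    let i : Ω →ₐ[ℚ] AlgebraicClosure ℚ_[l] := IsAlgClosed.lift
    have h1 := (frob l hlp).eig (i.toRingHom.comp j) b (i.toRingHom a)
    rw [← Polynomial.hom_eval₂, ha, map_zero] at h1
    obtain ⟨z, hz, -, hz2⟩ := h1.2 rfl
    have h2 := H45K.root_of_eig hz hz2
    rw [Matrix.charpoly_map, char l hlp, Polynomial.map_map, Polynomial.eval_map] at h2
    have h3 : (algebraMap ℚ_[l] (AlgebraicClosure ℚ_[l])).comp (algebraMap ℤ ℚ_[l]) = i.toRingHom.comp (algebraMap ℤ Ω) :=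
      RingHom.ext_int _ _
    rw [h3, ← Polynomial.hom_eval₂] at h2
    rw [aeval_def]
    exact (map_eq_zero i.toRingHom).1 h2
  have hpQ : (∀ n : ℕ, n ≠ 0 → (p : ℚ) ^ n ≠ 1) := by
    intro n hn
    have h1 : (1 : ℚ) < p := by exact_mod_cast hp.one_lt
    exact (one_lt_pow₀ h1 hn).ne'
  have hrecl : ∀ (l : ℕ) [Fact l.Prime], l ∉ ({2, p} : Set ℕ) → ∀ i : Ω →+* AlgebraicClosure ℚ_[l],
      (∀ r ∈ R, SqIn ℚ_[l] (i r)) → ρ l σ ∈ Subgroup.closure (Set.range fun g => ρ l g ^ 2) := by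
    intro l hl hlN i hi
    have hl2 : l ≠ 2 := fun h => hlN (by simp [h])
    have hlp : l ≠ p := fun h => hlN (by simp [h])
    refine H45K.recl hl2 (ρ l) (cont l) S (unr l) w hwS ?_ σ hσ (π : F) hdv hpos
      (fun u hu => H45K.sq_of_cong u π (hcong u hu)) i (fun τ => hi _ ((hR _).2 ⟨τ, rfl⟩))
    intro hlw
    have hpw : ((p : ℕ) : 𝓞 F) ∈ w.asIdeal := by
      rw [← hwp]
      exact Ideal.absNorm_mem _
    have h1 : IsCoprime (l : ℤ) (p : ℤ) := by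
      rw [Nat.isCoprime_iff_coprime]
      exact (Nat.coprime_primes hl.out hp).2 hlp
    obtain ⟨u, t, hut⟩ := h1
    apply w.isPrime.ne_top
    rw [Ideal.eq_top_iff_one]
    have h3 : (1 : 𝓞 F) = (u : 𝓞 F) * (l : 𝓞 F) + (t : 𝓞 F) * (p : 𝓞 F) := by
      have := congrArg (fun t : ℤ => (t : 𝓞 F)) hut
      push_cast at this
      exact this.symm
    rw [h3]
    exact w.asIdeal.add_mem (w.asIdeal.mul_mem_left _ hlw) (w.asIdeal.mul_mem_left _ hpw)
  have C : Core2 ψ D e ρ p σ (p : ℚ) (f.map (algebraMap ℤ ℚ)) χ φ μ ν v (inertia p v) j R ({2, p} : Set ℕ) :=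
    { hψ := hψ
      hψ0 := hψ0
      hspl := hspl
      lin := lin
      sim := sim
      semis := semis
      commt := commt
      gen := gen
      hq := hpQ
      mult := fun l _ hl => by
        rw [map_natCast]
        exact mult l hl
      char := fun l _ hl => by
        rw [hmapQ]
        exact char l hl
      frob := frob
      cyc := cyc
      frobp := frobp
      multp := by
        rw [map_natCast]
        exact multp
      charp := by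
        rw [hmapQ]
        exact charp
      crys := crysP
      vq := by
        rw [map_natCast]
        exact hvp
      hN := by simp
      arith := ⟨hrecl, fun Γ hT hΓR a _ ha h => H45K.cheb R {2, p} (by simp) Γ hT hΓR a ha h⟩
      Rstab := fun s r hr => H45K.R_stab hR s hr
      Rval := fun i => H45K.rval hval hvp hdv hp hwp hR i fun r hr => by
        refine hvd (i r) ?_ (fun δ hδ => hRfix i r hr δ hδ)
        obtain ⟨τ, rfl⟩ := (hR r).1 hr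
        rw [Ne, map_eq_zero, map_eq_zero]
        exact H45K.pi_ne hdv
      Rfix := hRfix
      Rtrans := fun r hr r' hr' => by
        obtain ⟨τ, rfl⟩ := (hR r).1 hr
        obtain ⟨τ', rfl⟩ := (hR r').1 hr'
        obtain ⟨s, hs⟩ := H45K.exists_aut τ τ'
        exact ⟨s, hs (π : F)⟩
      dec := fun s T => H45K.dec_of p s T
      gal := fun b a a' ha ha' hne => by
        refine H45K.gal hval hp hvp f hf weil (hroot b a ha) (hroot b a' ha') fun n hn h1 => ?_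
        rw [div_pow] at h1
        by_cases h0 : a' = 0
        · rw [h0, zero_pow hn, div_zero] at h1
          exact zero_ne_one h1
        · exact hne (neat b a a' ha ha' n hn (by rwa [div_eq_one_iff_eq (pow_ne_zero _ h0)] at h1)) }
  refine finalG C ?_ two ?_
  · intro b k c A hk hPD
    refine part b k (fun τ => c (τ (π : F))) A hk ⟨fun x => ?_, hPD.even, fun s hs => ?_⟩
    · obtain ⟨r, hr, hcr⟩ := hPD.surj x
      obtain ⟨τ, rfl⟩ := (hR r).1 hr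
      exact ⟨τ, hcr⟩
    · obtain ⟨π₀, h1, h2, h3, h4⟩ := hPD.perm s hs
      refine ⟨π₀, fun τ => h1 _ ((hR _).2 ⟨τ, rfl⟩), h2, fun ⟨κ, hκ⟩ => h3 fun y hy => ?_, h4⟩
      apply κ.injective
      have h5 : aeval (κ y) f = 0 := by
        have h6 := hroot b y hy
        have h7 : aeval (κ y) f = κ (aeval y f) := by
          rw [aeval_def, aeval_def]
          have h8 : (algebraMap ℤ ℂ) = κ.comp (algebraMap ℤ Ω) := RingHom.ext_int _ _
          rw [h8]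
          exact (hom_eval₂ f (algebraMap ℤ Ω) κ y).symm
        rw [h7, h6, map_zero]
      rw [map_mul, hκ, mul_comm, Complex.mul_conj, Complex.normSq_eq_norm_sq, weil _ h5, map_natCast, map_natCast]
      push_cast
      rfl
  · by_cases hb : ∀ b (k : ℕ), 3 ≤ k → Odd k → (e b).rank ≠ k.centralBinom
    · exact Or.inl hb
    · push Not at hb
      obtain ⟨b, k, hk, hk2, hk3⟩ := hb
      obtain ⟨⟨τ₀⟩, hM, N, hN, ht⟩ := binom b k hk hk2 hk3
      right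
      obtain ⟨c, T₀, h⟩ := H86K.real_of (F := F) j hM τ₀ ρ σ p χ f weil hroot N hN ht
      exact ⟨c, T₀, N, h⟩

end Pool.Agent.H45Q
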