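import Pool.Agent.Lib.H86K.K8
import Pool.Agent.Lib.H76Q.BL3

/-!
# S2: all odd functions are in the configuration: the component is full
-/

set_option autoImplicit false
set_option linter.unusedSectionVars false
namespace Pool.Agent.H45Q
open Module Matrix Pool.Agent.H53Toric Pool.Agent.H76P Pool.Agent.H76Q
open Pool.Agent.H76T (IsIdeal Fam)
open Pool.Agent.H76V (Cmp alg calg)

section
variable {κ : Type*} [Fintype κ] [DecidableEq κ] {Y : Submodule ℚ (κ → ℚ)} {P : Module.End ℚ Y}

/-- The elementary odd functions. -/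
def od (bar : Equiv.Perm κ) (k : κ) : κ → ℚ := fun x => if x = k then 1 else if x = bar k then -1 else 0

theorem od_self (bar : Equiv.Perm κ) (k : κ) : od bar k k = 1 := if_pos rfl

theorem od_odd {bar : Equiv.Perm κ} (hbb : ∀ k, bar (bar k) = k) (hbne : ∀ k, bar k ≠ k) (k x : κ) :
    od bar k (bar x) = -od bar k x := by
  unfold od
  by_cases h1 : x = k
  · subst h1
    rw [if_neg (hbne x), if_pos rfl, if_pos rfl]
  · by_cases h2 : x = bar k
    · subst h2
      rw [hbb, if_pos rfl, if_neg (hbne k), if_pos rfl, neg_neg]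
    · rw [if_neg h1, if_neg h2, if_neg, if_neg, neg_zero]
      · exact fun h => h1 (bar.injective h)
      · intro h
        apply h2
        rw [← h, hbb]

theorem od_cases (bar : Equiv.Perm κ) (k x : κ) : (x = k ∧ od bar k x = 1) ∨ (x ≠ k ∧ (od bar k x = 0 ∨ od bar k x = -1)) := by
  unfold od
  by_cases h1 : x = k
  · exact Or.inl ⟨h1, if_pos h1⟩
  · refine Or.inr ⟨h1, ?_⟩
    rw [if_neg h1]
    by_cases h2 : x = bar k
    · exact Or.inr (if_pos h2)
    · exact Or.inl (if_neg h2)

theorem cz_symm {k k' : κ} (h : cz P k k') : cz P k' k := fun f => (h f).symm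

theorem cz_trans {k k' k'' : κ} (h : cz P k k') (h' : cz P k' k'') : cz P k k'' := fun f => (h f).trans (h' f)

/-- The configuration of all odd functions does not split. -/
theorem sp_odd {bar : Equiv.Perm κ} (hbb : ∀ k, bar (bar k) = k) (hbne : ∀ k, bar k ≠ k)
    (hodd : ∀ f : κ → ℚ, (∀ k, f (bar k) = -f k) → f ∈ Y) (hsk : ∀ f ∈ Y, ∀ k, f (bar k) = -f k)
    (hn : 4 < Fintype.card κ) (hP : Sp P) : P = 0 ∨ P = 1 := by
  have hpair : ∀ k k', k' ≠ k → k' ≠ bar k → cz P k k' ∨ cz (1 - P) k k' := by
    intro k k' h1 h2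
    obtain ⟨c, hc⟩ := hP.mix k k'
    obtain ⟨c', hc'⟩ := hP.mix k' k
    have hsum : ∀ f : Y, (f : κ → ℚ) c + (f : κ → ℚ) c' = (f : κ → ℚ) k + (f : κ → ℚ) k' := by
      intro f
      rw [hc f, hc' f]
      ring
    have key : ∀ x x', x' ≠ x → x' ≠ bar x → (∀ f : Y, (f : κ → ℚ) c + (f : κ → ℚ) c' = (f : κ → ℚ) x + (f : κ → ℚ) x') →
        c = x ∨ c' = x := by
      intro x x' h1 h2 h3
      have h4 := h3 ⟨od bar x, hodd _ (od_odd hbb hbne x)⟩
      have h5 : od bar x x' = 0 := by
        unfold od
        rw [if_neg h1, if_neg h2]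
      change od bar x c + od bar x c' = od bar x x + od bar x x' at h4
      rw [h5, od_self, add_zero] at h4
      rcases od_cases bar x c with ⟨h6, -⟩ | ⟨-, h6⟩
      · exact Or.inl h6
      · rcases od_cases bar x c' with ⟨h7, -⟩ | ⟨-, h7⟩
        · exact Or.inr h7
        · exfalso
          rcases h6 with h6 | h6 <;> rcases h7 with h7 | h7 <;> rw [h6, h7] at h4 <;> norm_num at h4
    have h3 : c = k → cz P k k' := by
      rintro rfl f
      have h4 := hc f
      linarith
    have h4 : c = k' → cz (1 - P) k k' := by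
      intro h4 f
      have h5 := hc f
      rw [h4] at h5
      change (f : κ → ℚ) k - (P f : κ → ℚ) k = (f : κ → ℚ) k' - (P f : κ → ℚ) k'
      linarith
    rcases key k k' h1 h2 hsum with h5 | h5
    · exact Or.inl (h3 h5)
    · rcases key k' k (Ne.symm h1) (fun h => h2 (by rw [h, hbb])) (fun f => by rw [hsum f, add_comm]) with h6 | h6
      · exact Or.inr (h4 h6)
      · exact absurd (h6.symm.trans h5) h1
  have hboth : ∀ k k', cz P k k' → cz (1 - P) k k' → k' = k := by
    intro k k' h1 h2
    have h3 := h1 ⟨od bar k, hodd _ (od_odd hbb hbne k)⟩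
    have h4 := h2 ⟨od bar k, hodd _ (od_odd hbb hbne k)⟩
    have h5 : od bar k k = od bar k k' := by
      change od bar k k - _ = od bar k k' - _ at h4
      linarith
    rw [od_self] at h5
    rcases od_cases bar k k' with ⟨h6, -⟩ | ⟨-, h6⟩
    · exact h6
    · exfalso
      rcases h6 with h6 | h6 <;> rw [h6] at h5 <;> norm_num at h5
  by_cases hP0 : P = 0
  · exact Or.inl hP0
  right
  obtain ⟨k, hk⟩ : ∃ k, ¬ cz P k (bar k) := by
    by_contra hcon
    push Not at hcon
    apply hP0
    refine LinearMap.ext fun f => Subtype.ext (funext fun k => ?_)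
    have h1 := hcon k f
    have h2 := hsk _ (P f).2 k
    rw [h2] at h1
    change (P f : κ → ℚ) k = 0
    linarith
  have hex : ∀ x, ∃ y, y ≠ k ∧ y ≠ bar k ∧ y ≠ x ∧ y ≠ bar x := by
    intro x
    by_contra hcon
    push Not at hcon
    have h1 : (Finset.univ : Finset κ) ⊆ {k, bar k, x, bar x} := by
      intro y _
      rw [Finset.mem_insert, Finset.mem_insert, Finset.mem_insert, Finset.mem_singleton]
      by_contra h2
      push Not at h2
      exact h2.2.2.2 (hcon y h2.1 h2.2.1 h2.2.2.1)
    have h2 := Finset.card_le_card h1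
    rw [Finset.card_univ] at h2
    have h3 := Finset.card_le_four (a := k) (b := bar k) (c := x) (d := bar x)
    omega
  have hstep : ∀ k, ¬ cz P k (bar k) → (∀ x, ∃ y, y ≠ k ∧ y ≠ bar k ∧ y ≠ x ∧ y ≠ bar x) →
      ∀ x, x ≠ k → x ≠ bar k → ¬ cz P k x := by
    intro k hk hex x hx1 hx2 hA
    obtain ⟨y, hy1, hy2, hy3, hy4⟩ := hex x
    have hb2 : ∀ z, z ≠ k → z ≠ bar (bar k) := fun z h => by rwa [hbb]
    have h1 : cz (1 - P) (bar k) x := by
      rcases hpair (bar k) x hx2 (hb2 x hx1) with h | h
      · exact absurd (cz_trans hA (cz_symm h)) hk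
      · exact h
    rcases hpair k y hy1 hy2 with h2 | h2
    · have h3 : cz (1 - P) (bar k) y := by
        rcases hpair (bar k) y hy2 (hb2 y hy1) with h | h
        · exact absurd (cz_trans h2 (cz_symm h)) hk
        · exact h
      exact hy3 (hboth x y (cz_trans (cz_symm hA) h2) (cz_trans (cz_symm h1) h3))
    · rcases hpair (bar k) y hy2 (hb2 y hy1) with h3 | h3
      · rcases hpair x y hy3 hy4 with h4 | h4
        · exact hk (cz_trans hA (cz_trans h4 (cz_symm h3)))
        · exact hy2 (hboth (bar k) y h3 (cz_trans h1 h4))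
      · have h4 : cz (1 - P) k x := cz_trans h2 (cz_trans (cz_symm h3) h1)
        exact hx1 (hboth k x hA h4)
  have h1 := hstep k hk hex
  have h2 : ∀ x, x ≠ bar k → x ≠ k → ¬ cz P (bar k) x := by
    intro x hx1 hx2
    refine hstep (bar k) (fun h => hk (cz_symm (by rwa [hbb] at h))) (fun x => ?_) x hx1 (by rwa [hbb])
    obtain ⟨y, hy1, hy2, hy3, hy4⟩ := hex x
    exact ⟨y, hy2, by rwa [hbb], hy3, hy4⟩
  have h3 : ∀ x, x ≠ k → x ≠ bar k → cz (1 - P) k x := fun x hx1 hx2 =>
    (hpair k x hx1 hx2).resolve_left (h1 x hx1 hx2)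
  have h4 : ∀ x, x ≠ k → x ≠ bar k → cz (1 - P) (bar k) x := fun x hx1 hx2 =>
    (hpair (bar k) x hx2 (by rwa [hbb])).resolve_left (h2 x hx2 hx1)
  have h5 : cz (1 - P) k (bar k) := by
    obtain ⟨y, hy1, hy2, -, -⟩ := hex k
    exact cz_trans (h3 y hy1 hy2) (cz_symm (h4 y hy1 hy2))
  have h6 : ∀ x, cz (1 - P) k x := by
    intro x
    by_cases hx1 : x = k
    · subst hx1
      exact fun f => rfl
    · by_cases hx2 : x = bar k
      · subst hx2
        exact h5
      · exact h3 x hx1 hx2
  have h7 : (1 : Module.End ℚ Y) - P = 0 := by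
    refine LinearMap.ext fun f => Subtype.ext (funext fun x => ?_)
    have h8 := h6 x f
    have h9 := h6 (bar x) f
    have h10 := hsk _ ((1 - P) f).2 x
    change (((1 - P) f : Y) : κ → ℚ) x = 0
    linarith
  exact (sub_eq_zero.1 h7).symm

end

section
variable {κ : Type*} {K : Type*} [Field K] [CharZero K] [Fintype κ] [DecidableEq κ]
  {L : Submodule K (Module.End K (κ → K))} {J : Matrix κ κ K} [IsAlgClosed K] [Nonempty κ]
  {Y : Submodule ℚ (κ → ℚ)}

theorem full_odd (h : TS L J) (hY : Yo L = Y)
    {bar : Equiv.Perm κ} (hbb : ∀ k, bar (bar k) = k) (hbne : ∀ k, bar k ≠ k)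
    (hodd : ∀ f : κ → ℚ, (∀ k, f (bar k) = -f k) → f ∈ Y) (hsk : ∀ f ∈ Y, ∀ k, f (bar k) = -f k)
    {X : Module.End K (κ → K)} (hX : adjE J X = -X) : X ∈ L := by
  classical
  subst hY
  obtain ⟨m, I, hF⟩ := Pool.Agent.H76T.exists_fam h.cmp.lie h.cmp.irr h.cmp.tr
  rcases Nat.lt_or_ge m 2 with hm | hm
  · interval_cases m
    · exfalso
      have hL : L = ⊥ := by
        rw [← hF.sup]
        exact iSup_of_empty _
      have h2 : ∀ y ∈ L, y * y = 1 → False := by
        intro y hy hy2
        rw [hL, Submodule.mem_bot] at hy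
        rw [hy, mul_zero] at hy2
        exact zero_ne_one hy2
      obtain ⟨c, hc⟩ := h.cmp.gen X fun y hy hy2 => (h2 y hy hy2).elim
      -- every operator is scalar, hence the space has dimension one, which contradicts the symplectic form
      have h3 : Subsingleton κ := by
        refine ⟨fun a b => ?_⟩
        by_contra hab
        obtain ⟨f, hf, hfab⟩ := h.sep a b hab
        obtain ⟨c', hc'⟩ := h.cmp.gen (dq f) fun y hy hy2 => (h2 y hy hy2).elim
        apply hfab
        have h4 := congrFun (congrArg (fun T : Module.End K (κ → K) => T fun _ => 1) hc') a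
        have h5 := congrFun (congrArg (fun T : Module.End K (κ → K) => T fun _ => 1) hc') b
        unfold dq at h4 h5
        simp only [dg_apply, LinearMap.smul_apply, Module.End.one_apply, Pi.smul_apply, smul_eq_mul, mul_one] at h4 h5
        have h6 : ((f a : ℚ) : K) = ((f b : ℚ) : K) := by rw [h4, h5]
        exact_mod_cast h6
      obtain ⟨a⟩ := ‹Nonempty κ›
      have h4 : J.det = J a a := by
        have : Unique κ := ⟨⟨a⟩, fun b => Subsingleton.elim b a⟩
        exact Matrix.det_eq_elem_of_subsingleton J a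
      have h5 : J a a = -J a a := by
        have h6 := congrFun (congrFun h.cmp.Jt a) a
        rwa [Matrix.transpose_apply, Matrix.neg_apply] at h6
      have h6 : J a a = 0 := self_eq_neg.1 h5
      have h7 := h.cmp.Jd
      rw [h4, h6] at h7
      exact not_isUnit_zero h7
    · have hcase : ∀ N ∈ L, N * N = 0 → N ≠ 0 → 3 ≤ Fintype.card κ →
          ∃ N ∈ L, N * N = 0 ∧ N ≠ 0 ∧ finrank K (LinearMap.range N) ≤ 2 := fun N _ _ _ hn =>
        Pool.Agent.H86K.exists_small h.cmp hbb hbne (fun f hf => Yo_mem (hodd f hf)) hn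
      rcases Cmp.simple h.cmp hF with h2 | ⟨n, hn, -, hn2, hn3⟩ | ⟨k, hk, hk2, hk3, hk4⟩
      · exact h2 X hX
      · exfalso
        rw [Module.finrank_fintype_fun_eq_card] at hn2
        have h32 : 2 ^ 5 ≤ 2 ^ n := Nat.pow_le_pow_right (by norm_num) hn
        have h5 : 32 ≤ Fintype.card κ := by
          rw [hn2]
          exact h32
        obtain ⟨N, hN, hN2, hN0, hr⟩ := Pool.Agent.H86K.exists_small h.cmp hbb hbne
          (fun f hf => Yo_mem (hodd f hf)) (by omega)
        have h7 := hn3 N hN hN2 hN0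
        rw [Module.finrank_fintype_fun_eq_card] at h7
        omega
      · exfalso
        rw [Module.finrank_fintype_fun_eq_card] at hk3
        have h5 : 6 ≤ (k - 1).centralBinom := by
          have h6 : Nat.centralBinom 2 ≤ (k - 1).centralBinom := Nat.centralBinom_strictMono.monotone (by omega)
          have h7 : Nat.centralBinom 2 = 6 := by decide
          omega
        have h6 : (k - 1).centralBinom ≤ k.centralBinom := Nat.centralBinom_strictMono.monotone (by omega)
        obtain ⟨N, hN, hN2, hN0, hr⟩ := Pool.Agent.H86K.exists_small h.cmp hbb hbne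
          (fun f hf => Yo_mem (hodd f hf)) (by omega)
        have h7 := hk4 N hN hN2 hN0
        omega
  · exfalso
    have hij : (⟨0, by omega⟩ : Fin m) ≠ ⟨1, by omega⟩ := by
      intro e
      exact absurd (congrArg Fin.val e) (by norm_num)
    set i : Fin m := ⟨0, by omega⟩ with hi
    set j : Fin m := ⟨1, by omega⟩ with hj
    rcases Nat.lt_or_ge 4 (Fintype.card κ) with hn | hle
    · obtain ⟨P, hP1, hP2, hP3, hPS⟩ := exists_proj h.cmp hF i
      have hSp : Sp P := Sp_iff.2 hPS
      obtain ⟨f, hf, hf0, hfi⟩ := h.exists_diag hF i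
      obtain ⟨f', hf', hf0', hfi'⟩ := h.exists_diag hF j
      rcases sp_odd hbb hbne hodd hsk hn hSp with h3 | h3
      · have h4 := hP2 ⟨f, hf⟩ hfi
        rw [h3, LinearMap.zero_apply] at h4
        exact hf0 (congrArg Subtype.val h4).symm
      · have h4 := hP3 j (Ne.symm hij) ⟨f', hf'⟩ hfi'
        rw [h3, Module.End.one_apply] at h4
        exact hf0' (congrArg Subtype.val h4)
    · obtain ⟨a, d, ha, hd, hV, ha2, hd2, -, -⟩ := h.cmp.dims hF (i := i) (j := j) hij
      rw [Module.finrank_fintype_fun_eq_card] at hV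
      have hpos : 0 < Fintype.card κ := Fintype.card_pos
      have ha0 : a = 2 := by
        obtain ⟨a', rfl⟩ := ha2
        obtain ⟨d', rfl⟩ := hd2
        have ha' : 0 < a' := by
          rcases Nat.eq_zero_or_pos a' with e | e
          · rw [e] at hV
            simp at hV
          · exact e
        have hd' : 0 < d' := by
          rcases Nat.eq_zero_or_pos d' with e | e
          · rw [e] at hV
            simp at hV
          · exact e
        have h5 : a' * d' ≤ 1 := by
          have h6 : (a' + a') * (d' + d') ≤ 4 := by rw [← hV]; exact hle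
          nlinarith
        have h6 : a' ≤ 1 := by nlinarith
        omega
      obtain ⟨u, hu, hu0, hu2⟩ := h.cmp.nil hF j
      have h5 : 4 ∣ finrank K (LinearMap.range u) := h.cmp.four hF hij ha ha0 hu
      have h6 : finrank K (LinearMap.range u) ≤ finrank K (LinearMap.ker u) := by
        refine Submodule.finrank_mono ?_
        rintro _ ⟨x, rfl⟩
        rw [LinearMap.mem_ker]
        exact congrArg (fun T : Module.End K (κ → K) => T x) hu2
      have h7 := LinearMap.finrank_range_add_finrank_ker u
      rw [Module.finrank_fintype_fun_eq_card] at h7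
      have h8 : finrank K (LinearMap.range u) = 0 := by
        obtain ⟨c, hc⟩ := h5
        omega
      apply hu0
      rw [Submodule.finrank_eq_zero] at h8
      exact LinearMap.range_eq_bot.1 h8

end

end Pool.Agent.H45Q
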