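import Pool.Agent.Lib.H45Q.S1
import Pool.Agent.Lib.H45Q.S2
import Pool.Agent.Lib.H86K.K12
import Pool.Agent.Lib.H76Q.W3

/-!
# S3: the component theorem with one class of Hodge-Tate cocharacters
-/

set_option autoImplicit false
set_option linter.unusedSectionVars false
namespace Pool.Agent.H45Q
open Module Matrix Polynomial Pool.Agent.H53Toric Pool.Agent.H76P Pool.Agent.H76Q
open Pool.Agent.H76T (IsIdeal Fam Lc)
open Pool.Agent.H76V (Cmp)
open Pool.Agent.H76U (cmp preL IsSplitting)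
open Pool.Agent.H76RM (spanK similD)

/-- At some prime `l` the image of the group is contained in the group generated by the conjugates of one
Hodge-Tate cocharacter `t ↦ 1 + (t - 1) h`. -/
def Gen1 {ι : Type*} [Fintype ι] [DecidableEq ι] {G : Type*} [Group G]
    (ρ : ∀ (l : ℕ) [Fact l.Prime], G →* Matrix.GeneralLinearGroup ι ℚ_[l]) : Prop :=
  ∃ (l : ℕ) (_ : Fact l.Prime), ∃ h ∈ properProj (AlgebraicClosure ℚ_[l]) (ρ l), ∀ g : G,
    (ρ l g).1.map (algebraMap ℚ_[l] (AlgebraicClosure ℚ_[l])) ∈ Submonoid.closure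
      {x | ∃ y y' : Matrix ι ι (AlgebraicClosure ℚ_[l]), y ∈ tgen (AlgebraicClosure ℚ_[l]) (ρ l) ∧ y * y' = 1 ∧
        ∃ t : AlgebraicClosure ℚ_[l], t ≠ 0 ∧ x = 1 + (t - 1) • (y * h * y')}

section
variable {ι : Type*} [Fintype ι] [DecidableEq ι] {K : Type*} [Field K] [CharZero K]
  [IsAlgClosed K] {J : Matrix ι ι K} {S 𝓗 : Set (Matrix ι ι K)} {e x : Matrix ι ι K} {q : K} {n : ℕ}
  {U : Matrix ι (Fin n) K} {V : Matrix (Fin n) ι K} {d : Fin n → K}
  {Y : Submodule ℚ (Fin n → ℚ)}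

/-- If the component is full, the configuration is the space of all odd functions. -/
theorem odd_local (h : Loc J S 𝓗 e x q U V d Y) {bar : Equiv.Perm (Fin n)} (hbar : ∀ k, d k * d (bar k) = q)
    (hfull : ∀ X : Module.End K (Fin n → K), adjE (Uᵀ * J * U) X = -X → X ∈ Lc J S U V) :
    (∀ k, bar (bar k) = k) ∧ (∀ k, bar k ≠ k) ∧ (∀ f : Fin n → ℚ, (∀ k, f (bar k) = -f k) → f ∈ Y) ∧
      ∀ f ∈ Y, ∀ k, f (bar k) = -f k := by
  have hne : Nonempty (Fin n) := ⟨⟨0, h.pos⟩⟩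
  have hd0 : ∀ k, d k ≠ 0 := h.ec.ne
  have hpair : ∀ k l, (Uᵀ * J * U) k l ≠ 0 → l = bar k := pair_bar h hbar hd0
  have hex : ∀ k, (Uᵀ * J * U) k (bar k) ≠ 0 := by
    intro k h0
    have h1 : ∀ l, (Uᵀ * J * U) k l = 0 := by
      intro l
      by_contra h2
      have h3 := hpair k l h2
      rw [h3] at h2
      exact h2 h0
    have h3 := h.ts.cmp.Jd
    rw [Matrix.det_eq_zero_of_row_eq_zero k h1] at h3
    exact not_isUnit_zero h3
  have hsym : ∀ k, (Uᵀ * J * U) (bar k) k ≠ 0 := by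
    intro k h0
    have h1 := congrFun (congrFun h.ts.cmp.Jt k) (bar k)
    rw [Matrix.transpose_apply, Matrix.neg_apply, h0] at h1
    exact hex k (neg_eq_zero.1 h1.symm)
  refine ⟨fun k => (hpair _ _ (hsym k)).symm, fun k hk => ?_, fun f hf => ?_, fun f hf k => ?_⟩
  · have h1 := congrFun (congrFun h.ts.cmp.Jt k) k
    rw [Matrix.transpose_apply, Matrix.neg_apply] at h1
    have h2 := hex k
    rw [hk] at h2
    exact h2 (self_eq_neg.1 h1)
  · rw [← h.yo]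
    refine h.ts.diag f (hfull _ (Pool.Agent.Lib.H86E.skew_of_opp h.ts.cmp fun k l hkl => ?_))
    rw [hpair k l hkl]
    exact hf k
  · exact Pool.Agent.Lib.H86E.opp h.ts.cmp (by rw [h.yo]; exact hf) (hex k)

end

section
variable {ι : Type*} [Fintype ι] [DecidableEq ι] {ψ : Matrix ι ι ℚ}
    {D : Subalgebra ℚ (Matrix ι ι ℚ)} {M : Type} [Field M] [NumberField M]
    {m : ℕ} {e : Fin m → Matrix ι ι M} {G : Type*} [Group G]
    {ρ : ∀ (l : ℕ) [Fact l.Prime], G →* Matrix.GeneralLinearGroup ι ℚ_[l]}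
    {p : ℕ} [Fact p.Prime] {σ : G} {q : ℚ} {f : ℚ[X]} {F : Fin m → M[X]}
    {φ μ ν : Matrix ι ι (AlgebraicClosure ℚ_[p])} {v : AlgebraicClosure ℚ_[p] → ℚ}
    {Δ : Set (AlgebraicClosure ℚ_[p] ≃+* AlgebraicClosure ℚ_[p])}
    {Ω : Type} [Field Ω] [CharZero Ω] [IsAlgClosed Ω] [Algebra.IsAlgebraic ℚ Ω] {j : M →+* Ω}
    {R : Finset Ω} {N : Set ℕ} (C : Core2 ψ D e ρ p σ q f F φ μ ν v Δ j R N)

include C

/-- Local data at any prime. -/
theorem loc_any (b : Fin m) {n : ℕ} {a : Fin n → Ω} (ha : Function.Injective a)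
    (hroot : ∀ y : Ω, (F b).eval₂ j y = 0 ↔ ∃ k, y = a k)
    (l : ℕ) [hl : Fact l.Prime] (i : Ω →+* AlgebraicClosure ℚ_[l]) :
    ∃ (H₀ : Subgroup G) (U : Matrix ι (Fin n) (AlgebraicClosure ℚ_[l]))
      (V : Matrix (Fin n) ι (AlgebraicClosure ℚ_[l])) (x : Matrix ι ι (AlgebraicClosure ℚ_[l])), H₀.FiniteIndex ∧
      Loc (ψ.map (algebraMap ℚ (AlgebraicClosure ℚ_[l]))) (img (AlgebraicClosure ℚ_[l]) (ρ l) H₀)
        (properProj (AlgebraicClosure ℚ_[l]) (ρ l)) ((e b).map (i.comp j)) x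
        (algebraMap ℚ (AlgebraicClosure ℚ_[l]) q) U V (fun k => i (a k)) (YS a) := by
  by_cases hlp : l = p
  · subst hlp
    obtain ⟨H₀, U, V, h1, h2⟩ := C.locp b ha hroot i
    exact ⟨H₀, U, V, _, h1, h2⟩
  · obtain ⟨H₀, U, V, h1, h2⟩ := C.locl b ha hroot l hlp i
    exact ⟨H₀, U, V, _, h1, h2⟩

/-- **One class: at one prime all components are simple.** -/
theorem simple1 (hg : Gen1 ρ) (b : Fin m) {n : ℕ} {a : Fin n → Ω} (ha : Function.Injective a)
    (hroot : ∀ y : Ω, (F b).eval₂ j y = 0 ↔ ∃ k, y = a k) :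
    ∃ (l : ℕ) (_ : Fact l.Prime) (i : Ω →+* AlgebraicClosure ℚ_[l]) (H₀ : Subgroup G)
      (U : Matrix ι (Fin n) (AlgebraicClosure ℚ_[l]))
      (V : Matrix (Fin n) ι (AlgebraicClosure ℚ_[l])) (x : Matrix ι ι (AlgebraicClosure ℚ_[l])),
      Loc (ψ.map (algebraMap ℚ (AlgebraicClosure ℚ_[l]))) (img (AlgebraicClosure ℚ_[l]) (ρ l) H₀)
        (properProj (AlgebraicClosure ℚ_[l]) (ρ l)) ((e b).map (i.comp j)) x
        (algebraMap ℚ (AlgebraicClosure ℚ_[l]) q) U V (fun k => i (a k)) (YS a) ∧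
      ∃ I : Fin 1 → Submodule (AlgebraicClosure ℚ_[l]) (Module.End (AlgebraicClosure ℚ_[l]) (Fin n → AlgebraicClosure ℚ_[l])),
        Fam (Lc (ψ.map (algebraMap ℚ (AlgebraicClosure ℚ_[l]))) (img (AlgebraicClosure ℚ_[l]) (ρ l) H₀) U V) I := by
  obtain ⟨l, hl, h, hh, hgen⟩ := hg
  let i : Ω →+* AlgebraicClosure ℚ_[l] :=
    (IsAlgClosed.lift (R := ℚ) (S := Ω) (M := AlgebraicClosure ℚ_[l])).toRingHom
  obtain ⟨H₀, U, V, x, -, hL⟩ := loc_any C b ha hroot l i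
  refine ⟨l, hl, i, H₀, U, V, x, hL, ?_⟩
  have hspl : IsSplitting D ψ id (fun c => (e c).map (i.comp j)) := C.hspl.map (i.comp j)
  have hne : Nonempty (Fin n) := ⟨⟨0, hL.pos⟩⟩
  obtain ⟨m', I, hF⟩ := Pool.Agent.H76T.exists_fam hL.ts.cmp.lie hL.ts.cmp.irr hL.ts.cmp.tr
  have h1 : m' = 1 := by
    refine fam_one (Gs := img (AlgebraicClosure ℚ_[l]) (ρ l) ⊤) hL.pos hL.UV hL.VU hL.ts.cmp.irr hL.ts.cmp.tr (fun k hk => ⟨(hL.par k hk).1, (hL.par k hk).2.1, (hL.par k hk).2.2.2⟩)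
      (fun Z hZ => hspl.corner b Z (C.commt l ⊤ inferInstance Z hZ)) hh ?_ hF
    rintro _ ⟨g, -, rfl⟩
    exact hgen g
  subst h1
  exact ⟨I, hF⟩

/-- The components of rank `2 ^ k`. -/
theorem odd_two (hg : Gen1 ρ) (b : Fin m) {n : ℕ} {a : Fin n → Ω} (ha : Function.Injective a)
    (hroot : ∀ y : Ω, (F b).eval₂ j y = 0 ↔ ∃ k, y = a k) {k : ℕ} (hk : n = 2 ^ k)
    (hk' : ¬ (5 ≤ k ∧ (k % 4 = 1 ∨ k % 4 = 2))) {bar : Equiv.Perm (Fin n)}
    (hbar : ∀ k, a k * a (bar k) = algebraMap ℚ Ω q) :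
    (∀ k, bar (bar k) = k) ∧ (∀ k, bar k ≠ k) ∧ (∀ f : Fin n → ℚ, (∀ k, f (bar k) = -f k) → f ∈ YS a) ∧
      ∀ f ∈ YS a, ∀ k, f (bar k) = -f k := by
  obtain ⟨l, hl, i, H₀, U, V, x, hL, I, hF⟩ := simple1 C hg b ha hroot
  have hne : Nonempty (Fin n) := ⟨⟨0, hL.pos⟩⟩
  refine odd_local hL (bar := bar) (fun k => ?_) ?_
  · rw [← map_mul, hbar k, eq_ratCast, eq_ratCast, map_ratCast]
  · rcases Cmp.simple hL.ts.cmp hF with h2 | ⟨n', hn', hn2', hn3', -⟩ | ⟨k', hk1, hk2, hk3, -⟩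
    · exact h2
    · exfalso
      rw [Module.finrank_fintype_fun_eq_card, Fintype.card_fin, hk] at hn3'
      have h3 : k = n' := Nat.pow_right_injective le_rfl hn3'
      subst h3
      exact hk' ⟨hn', hn2'⟩
    · exfalso
      rw [Module.finrank_fintype_fun_eq_card, Fintype.card_fin, hk] at hk3
      exact Pool.Agent.H49M.R3_binom_pow (by omega) hk3.symm

/-- **The component theorem**, with the alternatives for one class and for a real place. -/
theorem compG (part : ∀ b (k : ℕ) (c : Ω → Fin k) (A : Fin k → ℕ), 2 ≤ k →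
      PartD D j (e b) (F b) q R c A → (e b).rank ≠ ∏ x, A x)
    (two : ∀ b (k : ℕ), 4 ≤ k → (e b).rank = 2 ^ k → Gen1 ρ ∧ ¬ (5 ≤ k ∧ (k % 4 = 1 ∨ k % 4 = 2)))
    (alt : (∀ b (k : ℕ), 3 ≤ k → Odd k → (e b).rank ≠ k.centralBinom) ∨
      ∃ (c : Ω ≃+* Ω) (T₀ : Finset Ω) (N' : Set ℕ), Pool.Agent.H86K.Real ρ σ q F j c T₀ N') (b : Fin m) :
    ∃ a : Fin (e b).rank → Ω, Function.Injective a ∧
      (∀ y : Ω, (F b).eval₂ j y = 0 ↔ ∃ k, y = a k) ∧
      ∀ (K : Type) [Field K] [CharZero K] [IsAlgClosed K]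
        (L : Submodule K (Module.End K (Fin (e b).rank → K)))
        (J : Matrix (Fin (e b).rank) (Fin (e b).rank) K),
        TS L J → Yo L = YS a → ∀ X, adjE J X = -X → X ∈ L := by
  obtain ⟨a, ha, hroot⟩ := C.enum b
  refine ⟨a, ha, hroot, fun K _ _ _ L J hT hY X hX => ?_⟩
  rcases Nat.eq_zero_or_pos (e b).rank with hn | hn
  · have : IsEmpty (Fin (e b).rank) := by rw [hn]; infer_instance
    have h0 : X = 0 := LinearMap.ext fun z => Subsingleton.elim _ _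
    rw [h0]
    exact L.zero_mem
  have : Nonempty (Fin (e b).rank) := ⟨⟨0, hn⟩⟩
  by_cases htwo : ∃ k : ℕ, 4 ≤ k ∧ (e b).rank = 2 ^ k
  · obtain ⟨k, hk4, hk⟩ := htwo
    obtain ⟨hg, hk'⟩ := two b k hk4 hk
    obtain ⟨bar, hbar⟩ := C.bar b ha hroot
    obtain ⟨hbb, hbne, hodd, hsk⟩ := odd_two C hg b ha hroot hk hk' hbar
    exact full_odd hT hY hbb hbne hodd hsk hX
  have htwo' : ∀ k : ℕ, 4 ≤ k → (e b).rank ≠ 2 ^ k := fun k hk h => htwo ⟨k, hk, h⟩
  have hq0 : q ≠ 0 := by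
    obtain ⟨l, hl, hlp⟩ : ∃ l : ℕ, l.Prime ∧ l ≠ p := by
      obtain ⟨l, hl, hlp⟩ := Nat.exists_infinite_primes (p + 1)
      exact ⟨l, hlp, by omega⟩
    have : Fact l.Prime := ⟨hl⟩
    rintro rfl
    have h1 := congrArg Matrix.det (C.mult l hlp)
    rw [map_zero, zero_smul, Matrix.det_mul, Matrix.det_mul, Matrix.det_transpose] at h1
    have h2 : (ρ l σ).1.det ≠ 0 := by
      have h3 : IsUnit (ρ l σ).1.det := (Matrix.isUnit_iff_isUnit_det _).1 (ρ l σ).isUnit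
      exact h3.ne_zero
    have h4 : (ψ.map (algebraMap ℚ ℚ_[l])).det ≠ 0 := by
      have h5 : (ψ.map (algebraMap ℚ ℚ_[l])).det = algebraMap ℚ ℚ_[l] ψ.det := (RingHom.map_det _ _).symm
      rw [h5]
      exact (_root_.map_ne_zero _).2 C.hψ0
    have h6 : Nonempty ι := by
      by_contra hcon
      rw [not_nonempty_iff] at hcon
      have h7 := (e b).rank_le_card_width
      rw [Fintype.card_eq_zero] at h7
      omega
    rw [Matrix.det_zero] at h1
    exact mul_ne_zero (mul_ne_zero h2 h4) h2 h1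
  obtain ⟨bar, hbar⟩ := C.bar b ha hroot
  have ha0 : ∀ k, a k ≠ 0 := by
    intro k hk
    have h1 := hbar k
    rw [hk, zero_mul] at h1
    exact (_root_.map_ne_zero _).2 hq0 h1.symm
  have hsep : ∀ k l, k ≠ l → ∃ g ∈ YS a, g k ≠ g l :=
    YS_sep ha0 fun k l n hn h => ha (C.tor b ((hroot _).2 ⟨k, rfl⟩) ((hroot _).2 ⟨l, rfl⟩) hn h)
  have hs : ∀ g ∈ YS a, ∑ k, g k = 0 := fun g hg => hg.1
  obtain ⟨FF, hFF, horth, hsum, hperm, hone⟩ := Pool.Agent.H86K.exists_blocks2 hn hs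
  have hF1 : FF.card = 1 := by
    rcases Nat.lt_or_ge FF.card 2 with h5 | h5
    · interval_cases h6 : FF.card
      · exfalso
        have hcard : (e b).rank = 1 := by
          have h7 := prod_nz hs hsep (fun P hP => (hFF P hP).1) horth hsum
          rw [Finset.card_eq_zero.1 h6, Finset.prod_empty, Fintype.card_fin] at h7
          exact h7
        -- one point: there is no symplectic form
        have h7 : J.det = 0 := by
          have h8 : J.det = -J.det := by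
            have h9 := congrArg Matrix.det hT.cmp.Jt
            rw [Matrix.det_transpose, Matrix.det_neg, Fintype.card_fin] at h9
            have h10 : ((-1 : K)) ^ (e b).rank = -1 := by rw [hcard, pow_one]
            rwa [h10, neg_one_mul] at h9
          exact self_eq_neg.1 h8
        have h8 := hT.cmp.Jd
        rw [h7] at h8
        exact not_isUnit_zero h8
      · rfl
    · exfalso
      obtain ⟨c, A, h7, h8⟩ := C.partd b ha hroot hn hFF horth hsum hperm (by omega)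
      exact part b FF.card c A h5 h7 h8
  rcases alt with hb | ⟨c, T₀, N', hr⟩
  · refine full_of_one hT hY (hone hF1) (fun k hk => ?_) (fun k hk hk' => ?_) hX
    · rw [Fintype.card_fin]
      exact htwo' k hk
    · rw [Fintype.card_fin]
      exact hb b k hk hk'
  · exact Pool.Agent.H86K.core2_full C hr b hn ha hroot (hone hF1) htwo' hT hY hX

end

end Pool.Agent.H45Q
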